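import Mathlib

set_option autoImplicit false

/-!
# A curve with argument of constant speed
-/

namespace Pool.Agent.Q278.DE

open Complex Set Metric MeasureTheory
open scoped ComplexConjugate

/-- the phase of `A`, where `A' = I B`, `B / A ≈ L` -/
theorem phaseG {A B : ℝ → ℂ} {y0 D L e : ℝ} (hD : 0 < D)
    (hA : ∀ y ∈ Icc y0 (y0 + D), HasDerivAt A (I * B y) y) (hB : ContinuousOn B (Icc y0 (y0 + D)))
    (hX : ∀ y ∈ Icc y0 (y0 + D), A y ≠ 0 ∧ |(B y / A y).re - L| ≤ e) :
    ∃ E : ℝ → ℂ, Continuous E ∧ E y0 = 0 ∧ (∀ y ∈ Icc y0 (y0 + D), A y = A y0 * cexp (E y)) ∧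
      ∀ y1 y2 : ℝ, y1 ≤ y2 → (L - e) * (y2 - y1) ≤ (E y2).im - (E y1).im ∧
        (E y2).im - (E y1).im ≤ (L + e) * (y2 - y1) := by
  have hle : y0 ≤ y0 + D := by linarith
  obtain ⟨ℓ0, hℓ0⟩ : ∃ ℓ0 : ℝ → ℂ, ℓ0 = fun y : ℝ => I * (B y / A y) := ⟨_, rfl⟩
  have hAc : ContinuousOn A (Icc y0 (y0 + D)) := fun y hy => (hA y hy).continuousAt.continuousWithinAt
  have hc0 : ContinuousOn ℓ0 (Icc y0 (y0 + D)) := by
    rw [hℓ0]
    exact continuousOn_const.mul (hB.div hAc fun y hy => (hX y hy).1)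
  obtain ⟨ℓ, hℓ⟩ : ∃ ℓ : ℝ → ℂ, ℓ = Set.IccExtend hle (fun y : Icc y0 (y0 + D) => ℓ0 y) := ⟨_, rfl⟩
  have hcℓ : Continuous ℓ := by
    rw [hℓ]
    exact Continuous.Icc_extend' (hc0.domRestrict)
  have hℓe : ∀ y ∈ Icc y0 (y0 + D), ℓ y = ℓ0 y := by
    intro y hy
    rw [hℓ]
    exact Set.IccExtend_of_mem hle _ hy
  have hℓb : ∀ y, |(ℓ y).im - L| ≤ e := by
    intro y
    rw [hℓ]
    unfold Set.IccExtend
    simp only [Function.comp_apply]
    obtain ⟨y', hy'⟩ := Set.projIcc y0 (y0 + D) hle y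
    have h1 := (hX y' hy').2
    simp only
    rw [hℓ0]
    simpa [Complex.mul_im] using h1
  obtain ⟨E, hE⟩ : ∃ E : ℝ → ℂ, E = fun y => ∫ v in y0..y, ℓ v := ⟨_, rfl⟩
  have hEd : ∀ y, HasDerivAt E (ℓ y) y := by
    intro y
    rw [hE]
    exact intervalIntegral.integral_hasDerivAt_right (hcℓ.intervalIntegrable _ _)
      hcℓ.stronglyMeasurable.stronglyMeasurableAtFilter hcℓ.continuousAt
  have hEc : Continuous E := continuous_iff_continuousAt.2 fun y => (hEd y).continuousAt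
  refine ⟨E, hEc, by rw [hE]; simp, ?_, ?_⟩
  · intro y hy
    have hder : ∀ x ∈ Ico y0 (y0 + D), HasDerivWithinAt
        (fun x : ℝ => A x * cexp (-(E x))) 0 (Ici x) x := by
      intro x hx
      have hx' : x ∈ Icc y0 (y0 + D) := ⟨hx.1, hx.2.le⟩
      have h2 := hA x hx'
      have h3 : HasDerivAt (fun x : ℝ => cexp (-(E x))) (cexp (-(E x)) * (-(ℓ x))) x :=
        ((hEd x).neg).cexp
      have h4 := h2.mul h3
      have h5 : I * B x * cexp (-(E x)) + A x * (cexp (-(E x)) * (-(ℓ x))) = 0 := by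
        rw [hℓe x hx', hℓ0]
        simp only
        have h6 := (hX x hx').1
        field_simp
        ring
      rw [h5] at h4
      exact h4.hasDerivWithinAt
    have hcont : ContinuousOn (fun x : ℝ => A x * cexp (-(E x))) (Icc y0 (y0 + D)) := by
      have : Continuous (fun x : ℝ => cexp (-(E x))) := by fun_prop
      exact hAc.mul this.continuousOn
    have h1 := constant_of_has_deriv_right_zero hcont hder y hy
    have h0 : E y0 = 0 := by rw [hE]; simp
    simp only [h0, neg_zero, Complex.exp_zero, mul_one] at h1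
    rw [← h1, mul_assoc, ← Complex.exp_add, neg_add_cancel, Complex.exp_zero, mul_one]
  · intro y1 y2 h12
    have hdi : ∀ y, HasDerivAt (fun y => (E y).im) (ℓ y).im y := fun y => by
      have h := (Complex.imCLM.hasFDerivAt (x := E y)).comp_hasDerivAt y (hEd y)
      exact h
    have hdiff : Differentiable ℝ (fun y => (E y).im) := fun y => (hdi y).differentiableAt
    constructor
    · refine mul_sub_le_image_sub_of_le_deriv hdiff (fun y => ?_) h12
      rw [(hdi y).deriv]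
      have := (abs_le.1 (hℓb y)).1
      linarith
    · refine image_sub_le_mul_sub_of_deriv_le hdiff (fun y => ?_) h12
      rw [(hdi y).deriv]
      have := (abs_le.1 (hℓb y)).2
      linarith

/-- The next zero of `A + ω conj A`. -/
theorem next_zeroG {A B : ℝ → ℂ} {y0 D L e : ℝ} {ω : ℂ} (he : e < L) (hD0 : 0 < D)
    (hD : Real.pi < (L - e) * D)
    (hA : ∀ y ∈ Icc y0 (y0 + D), HasDerivAt A (I * B y) y) (hB : ContinuousOn B (Icc y0 (y0 + D)))
    (hX : ∀ y ∈ Icc y0 (y0 + D), A y ≠ 0 ∧ |(B y / A y).re - L| ≤ e)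
    (h0 : A y0 + ω * conj (A y0) = 0) :
    ∃ y1 : ℝ, y0 < y1 ∧ y1 ≤ y0 + D ∧ A y1 + ω * conj (A y1) = 0 ∧
      (∀ y : ℝ, y0 < y → y < y1 → A y + ω * conj (A y) ≠ 0) ∧
      (L - e) * (y1 - y0) ≤ Real.pi ∧ Real.pi ≤ (L + e) * (y1 - y0) := by
  obtain ⟨E, hEc, hE0, hE1, hE2⟩ := phaseG hD0 hA hB hX
  have hval : ∀ y ∈ Icc y0 (y0 + D), A y + ω * conj (A y) =
      A y0 * (Real.exp (E y).re : ℂ) * (2 * I * (Real.sin (E y).im : ℂ)) := by
    have h00 : A y0 = -(ω * conj (A y0)) := eq_neg_of_add_eq_zero_left h0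
    intro y hy
    rw [hE1 y hy, map_mul]
    have h3 : cexp (E y) = (Real.exp (E y).re : ℂ) * (Real.cos (E y).im + Real.sin (E y).im * I) := by
      conv_lhs => rw [← Complex.re_add_im (E y), Complex.exp_add, Complex.exp_mul_I]
      push_cast
      ring
    have h4 : conj (cexp (E y)) = (Real.exp (E y).re : ℂ) * (Real.cos (E y).im - Real.sin (E y).im * I) := by
      rw [h3, map_mul, map_add, map_mul, Complex.conj_ofReal, Complex.conj_ofReal, Complex.conj_ofReal,
        Complex.conj_I]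
      ring
    rw [h4, h3]
    linear_combination ((Real.exp (E y).re : ℂ) * (Real.cos (E y).im - Real.sin (E y).im * I)) * h00
  have hne0 := (hX y0 ⟨le_rfl, by linarith⟩).1
  have hLe : 0 < L - e := by linarith
  have hcim : Continuous (fun y => (E y).im) := Complex.continuous_im.comp hEc
  have h1 : Real.pi ∈ Icc ((E y0).im) ((E (y0 + D)).im) := by
    rw [hE0]
    refine ⟨by simpa using Real.pi_pos.le, ?_⟩
    have := (hE2 y0 (y0 + D) (by linarith)).1
    rw [hE0, Complex.zero_im] at this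
    have e : y0 + D - y0 = D := by ring
    rw [e] at this
    linarith
  obtain ⟨y1, hy1, hy1'⟩ := intermediate_value_Icc (by linarith : y0 ≤ y0 + D) hcim.continuousOn h1
  simp only at hy1'
  have hlt : y0 < y1 := by
    rcases hy1.1.lt_or_eq with h | h
    · exact h
    · rw [← h, hE0] at hy1'
      exact absurd hy1'.symm (by simp [Real.pi_pos.ne'])
  refine ⟨y1, hlt, hy1.2, ?_, ?_, ?_, ?_⟩
  · rw [hval y1 hy1, hy1', Real.sin_pi]
    simp
  · intro y h2 h3
    rw [hval y ⟨h2.le, h3.le.trans hy1.2⟩]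
    have h4 := (hE2 y0 y h2.le).1
    have h5 := (hE2 y y1 h3.le).1
    rw [hE0, Complex.zero_im, sub_zero] at h4
    rw [hy1'] at h5
    have h6 : 0 < (E y).im := lt_of_lt_of_le (mul_pos hLe (by linarith)) h4
    have h7 : (E y).im < Real.pi := by
      have := mul_pos hLe (by linarith : 0 < y1 - y)
      linarith
    have h8 := Real.sin_pos_of_pos_of_lt_pi h6 h7
    refine mul_ne_zero (mul_ne_zero hne0 ?_) ?_
    · exact_mod_cast (Real.exp_pos _).ne'
    · refine mul_ne_zero (mul_ne_zero two_ne_zero I_ne_zero) ?_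
      exact_mod_cast h8.ne'
  · have := (hE2 y0 y1 hlt.le).1
    rw [hy1', hE0, Complex.zero_im, sub_zero] at this
    exact this
  · have := (hE2 y0 y1 hlt.le).2
    rw [hy1', hE0, Complex.zero_im, sub_zero] at this
    exact this

end Pool.Agent.Q278.DE
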