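import Pool.Agent.Q278.DE.B
import Pool.Agent.H24R2.DZ.Half
import Pool.Agent.W571.SD.SB1

set_option autoImplicit false

/-!
# The next zero of the derivative, normalised situation
-/

namespace Pool.Agent.Q278.DE

open Complex Filter Topology MeasureTheory Set
open Pool.Agent.H24R2.DZ (bad hc NN)
open Pool.Agent.H986R2.K4 (QQ S_LAP lapQ)
open Pool.Agent.W571.SD (toQQ iter_shift)
open scoped ComplexConjugate

theorem local_next {ε : ℝ} (hε : 0 < ε) (hε1 : ε ≤ 1) : ∃ η : ℝ, ∃ n0 : ℕ, 0 < η ∧ η ≤ 1 / 200 ∧ 1 ≤ n0 ∧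
    ∀ (n : ℕ) (N : ℂ → ℂ), n0 ≤ n → NN n η N → ∀ v0 : ℝ, |v0| ≤ 1 / 100 → iteratedDeriv n N (v0 * I) = 0 →
    ∃ v1 : ℝ, v0 < v1 ∧ iteratedDeriv n N (v1 * I) = 0 ∧
      (∀ v : ℝ, v0 < v → v < v1 → iteratedDeriv n N (v * I) ≠ 0) ∧
      (1 - ε) * (n * (v1 - v0)) ≤ Real.pi ∧ Real.pi ≤ (1 + ε) * (n * (v1 - v0)) := by
  obtain ⟨κ1, η1, n1, hκ1, hκ1', hη1, hn1, hrat⟩ := ratio lapQ (ε := ε / 4) (by positivity) (by linarith)
    (κ := 1 / 2) (R := 18) (by norm_num) (by norm_num) (by norm_num)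
  refine ⟨min η1 (1 / 200), max n1 (max ⌈4 / ε⌉₊ ⌈8 / κ1⌉₊), lt_min hη1 (by norm_num), min_le_right _ _,
    le_max_of_le_left hn1, fun n N hn hN v0 hv0 h0 => ?_⟩
  have hnn1 : n1 ≤ n := (le_max_left _ _).trans hn
  have hnε : 4 / ε ≤ n := by
    have : ⌈4 / ε⌉₊ ≤ n := (le_max_left _ _).trans ((le_max_right _ _).trans hn)
    exact (Nat.le_ceil _).trans (by exact_mod_cast this)
  have hnκ : 8 / κ1 ≤ n := by
    have : ⌈8 / κ1⌉₊ ≤ n := (le_max_right _ _).trans ((le_max_right _ _).trans hn)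
    exact (Nat.le_ceil _).trans (by exact_mod_cast this)
  have hnpos : (0 : ℝ) < n := by
    have : 0 < n := by omega
    exact_mod_cast this
  rw [div_le_iff₀ hε] at hnε
  rw [div_le_iff₀ hκ1] at hnκ
  obtain ⟨F, hF⟩ : ∃ F : ℂ → ℂ, F = fun z => N (z + (v0 : ℂ) * I) := ⟨_, rfl⟩
  have hQ : QQ (1 / 2) 18 n η1 F := by
    rw [hF]
    exact toQQ (le_min hη1.le (by norm_num)) (min_le_right _ _) (min_le_left _ _) hN v0 hv0
  have hit : ∀ z : ℂ, iteratedDeriv n F z = iteratedDeriv n N (z + (v0 : ℂ) * I) := by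
    intro z
    rw [hF]
    exact iter_shift n _ z
  have hfac : (n.factorial : ℂ) ≠ 0 := by exact_mod_cast n.factorial_ne_zero
  have hk1 : κ1 < 1 := by linarith
  have hnorm : ∀ v : ℝ, ‖(v : ℂ) * I‖ = |v| := by
    intro v
    rw [norm_mul, Complex.norm_I, mul_one, Complex.norm_real, Real.norm_eq_abs]
  obtain ⟨A, hA⟩ : ∃ A : ℝ → ℂ, A = fun v : ℝ => hc F (n + 1) ((v : ℂ) * I) := ⟨_, rfl⟩
  obtain ⟨B, hB⟩ : ∃ B : ℝ → ℂ, B = fun v : ℝ => ((n : ℂ) + 1) * hc F (n + 2) ((v : ℂ) * I) := ⟨_, rfl⟩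
  have hline : ∀ v : ℝ, HasDerivAt (fun v : ℝ => (v : ℂ) * I) I v := by
    intro v
    simpa using (Complex.ofRealCLM.hasDerivAt (x := v)).mul_const I
  have hval : ∀ v : ℝ, |v| < 1 → iteratedDeriv n F (v * I) = n.factorial * (A v + (-1) ^ n * conj (A v)) := by
    intro v hv
    have h1 := (Pool.Agent.H24R2.DZ.half F n (v * I) hQ.diff hQ.symm (by rw [hnorm]; exact hv)).1
    have e : -((starRingEnd ℂ) ((v : ℂ) * I)) = v * I := by
      rw [map_mul, Complex.conj_ofReal, Complex.conj_I]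
      ring
    rw [e] at h1
    rw [div_eq_iff hfac] at h1
    rw [h1, hA]
    ring
  have hmem : ∀ y ∈ Icc (0 : ℝ) (0 + κ1), |y| ≤ κ1 := by
    intro y hy
    rw [abs_of_nonneg hy.1]
    linarith [hy.2]
  have hdA : ∀ y ∈ Icc (0 : ℝ) (0 + κ1), HasDerivAt A (I * B y) y := by
    intro y hy
    have hy' := hmem y hy
    have h1 := (Pool.Agent.H24R2.DZ.half F n (y * I) hQ.diff hQ.symm (by rw [hnorm]; linarith)).2
    rw [hA]
    refine (HasDerivAt.comp y h1 (hline y)).congr_deriv ?_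
    rw [hB]
    ring
  have hcB : ContinuousOn B (Icc (0 : ℝ) (0 + κ1)) := by
    intro y hy
    have hy' := hmem y hy
    have h1 := (Pool.Agent.H24R2.DZ.half F (n + 1) (y * I) hQ.diff hQ.symm (by rw [hnorm]; linarith)).2
    have h2 : ContinuousAt (fun z => hc F (n + 2) z) ((y : ℂ) * I) := h1.continuousAt
    rw [hB]
    exact (continuousAt_const.mul (ContinuousAt.comp (f := fun v : ℝ => (v : ℂ) * I) h2
      (hline y).continuousAt)).continuousWithinAt
  have hXX : ∀ y ∈ Icc (0 : ℝ) (0 + κ1), A y ≠ 0 ∧ |(B y / A y).re - (n + 1)| ≤ ε / 4 * (n + 1) := by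
    intro y hy
    obtain ⟨h1, h2⟩ := hrat n F hnn1 hQ (y * I) (by rw [hnorm]; exact hmem y hy)
    rw [hA, hB]
    refine ⟨h1, ?_⟩
    have e : ((n + 1) * hc F (n + 2) (y * I) / hc F (n + 1) (y * I) : ℂ) =
        ((n + 1 : ℝ) : ℂ) * (hc F (n + 2) (y * I) / hc F (n + 1) (y * I)) := by
      push_cast
      ring
    have e2 : (((n + 1) * hc F (n + 2) (y * I) / hc F (n + 1) (y * I) : ℂ)).re - (n + 1) =
        (n + 1) * (hc F (n + 2) (y * I) / hc F (n + 1) (y * I) - 1).re := by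
      rw [e, Complex.re_ofReal_mul, Complex.sub_re, Complex.one_re]
      ring
    show |(((n + 1) * hc F (n + 2) (y * I) / hc F (n + 1) (y * I) : ℂ)).re - (n + 1)| ≤ _
    rw [e2, abs_mul, abs_of_pos (by positivity : (0 : ℝ) < n + 1), mul_comm]
    apply mul_le_mul_of_nonneg_right _ (by positivity)
    exact (Complex.abs_re_le_norm _).trans h2
  have h00 : A 0 + (-1) ^ n * conj (A 0) = 0 := by
    have h1 := hval 0 (by simp)
    rw [hit, Complex.ofReal_zero, zero_mul, zero_add, h0] at h1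
    exact (mul_eq_zero.1 h1.symm).resolve_left hfac
  have hpi4 := Real.pi_lt_four
  obtain ⟨v, hv0', hv1', hv2, hv3, hv4, hv5⟩ := next_zeroG (A := A) (B := B) (y0 := 0) (D := κ1) (L := n + 1)
    (e := ε / 4 * (n + 1)) (ω := (-1) ^ n) (by nlinarith) hκ1 (by nlinarith) hdA hcB hXX h00
  rw [zero_add] at hv1'
  rw [sub_zero] at hv4 hv5
  have hshift : ∀ w : ℝ, ((w : ℂ) * I + (v0 : ℂ) * I) = ((v0 + w : ℝ) : ℂ) * I := by
    intro w
    push_cast
    ring
  refine ⟨v0 + v, by linarith, ?_, ?_, ?_, ?_⟩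
  · rw [← hshift, ← hit, hval v (by rw [abs_of_pos hv0']; linarith), hv2, mul_zero]
  · intro w hw1 hw2
    have e : (w : ℂ) * I = (((w - v0 : ℝ) : ℂ) * I + (v0 : ℂ) * I) := by
      push_cast
      ring
    rw [e, ← hit, hval (w - v0) (by rw [abs_of_pos (by linarith)]; linarith)]
    exact mul_ne_zero hfac (hv3 (w - v0) (by linarith) (by linarith))
  · have e : v0 + v - v0 = v := by ring
    rw [e]
    have h1 : (1 - ε) * (n * v) ≤ (n + 1 - ε / 4 * (n + 1)) * v := by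
      have h2 : (1 - ε) * n ≤ n + 1 - ε / 4 * (n + 1) := by nlinarith
      calc (1 - ε) * (n * v) = (1 - ε) * n * v := by ring
        _ ≤ _ := by gcongr
    linarith
  · have e : v0 + v - v0 = v := by ring
    rw [e]
    have h1 : (n + 1 + ε / 4 * (n + 1)) * v ≤ (1 + ε) * (n * v) := by
      have h2 : n + 1 + ε / 4 * (n + 1) ≤ (1 + ε) * n := by nlinarith
      calc (n + 1 + ε / 4 * (n + 1)) * v ≤ (1 + ε) * n * v := by gcongr
        _ = _ := by ring
    linarith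

end Pool.Agent.Q278.DE
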