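import Pool.Agent.Q278.DE.C
import Pool.Agent.W186.SD.FinD

set_option autoImplicit false

/-!
# Zeros of the derivative at good heights are nice
-/

namespace Pool.Agent.Q278.DE

open Complex Filter Topology MeasureTheory Set
open Pool.Agent.H24R2.JP (XX)
open Pool.Agent.H24R2.DZ
open W327.SD (iter_comp NN_mono ra_pos)
open Pool.Agent.W571.SD (ra_eq)

/-- on the line, simple, and followed by the next zero at the expected distance -/
def NiceD (n : ℕ) (η : ℝ) (s : ℂ) : Prop :=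
  s.re = 0 ∧ iteratedDeriv (n + 1) XX s ≠ 0 ∧ ∃ y1 : ℝ, s.im < y1 ∧ iteratedDeriv n XX (y1 * I) = 0 ∧
    (∀ w : ℂ, iteratedDeriv n XX w = 0 → s.im < w.im → y1 ≤ w.im) ∧
    |1 / 2 * Real.log s.im * (y1 - s.im) / Real.pi - 1| ≤ η

/-- the situation at scale `j` near `t` -/
def GH (η T : ℝ) (n j : ℕ) (t : ℝ) : Prop :=
  ∃ t' : ℝ, |t - t'| ≤ ra T (2 ^ j * n) / 200 ∧
    NN (2 ^ j * n) η (fun z => XX (I * t' + ra T (2 ^ j * n) * z))

theorem nice_aux {η a b P l q d : ℝ} (hη0 : 0 < η) (hη1 : η ≤ 1) (hP : 0 < P) (hd : 0 < d) (hl : 0 < l)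
    (ha : a = l * d) (hb : b = (l + q) * d) (hq0 : 0 ≤ q) (hq : q ≤ η / 400 * l)
    (h1 : (1 - η / 4) * a ≤ P) (h2 : P ≤ (1 + η / 4) * a) : |b / P - 1| ≤ η := by
  have ha0 : 0 < a := by rw [ha]; positivity
  have hab : a ≤ b := by rw [ha, hb]; nlinarith
  have hba : b ≤ (1 + η / 400) * a := by
    rw [ha, hb]
    have : q * d ≤ η / 400 * l * d := by gcongr
    linarith
  rw [abs_le]
  constructor
  · have h3 : 1 - η ≤ b / P := by
      rw [le_div_iff₀ hP]
      nlinarith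
    linarith
  · rw [sub_le_iff_le_add', div_le_iff₀ hP]
    nlinarith

theorem nice_of_good {η : ℝ} (hη0 : 0 < η) (hη1 : η ≤ 1) : ∃ η' : ℝ, ∃ n0 : ℕ, 0 < η' ∧ 1 ≤ n0 ∧
    ∀ (T : ℝ) (n J : ℕ) (s : ℂ), 2 ≤ T → n0 ≤ n → (n : ℝ) ≤ Real.log T / 400 → T < s.im → s.im ≤ 2 * T →
    iteratedDeriv n XX s = 0 → (∀ j ≤ J, GH η' T n j s.im) →
    (∀ w, bad n w → |w.im - s.im| ≤ 1 → |w.re| ≤ 5 * ra T (2 ^ J * n)) → NiceD n η s := by
  obtain ⟨ηL, nL, hηL, hηL', hnL, hloc⟩ := local_next (ε := η / 4) (by positivity) (by linarith)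
  obtain ⟨ηB, nB, hηB, hnB, hptB⟩ := Pool.Agent.W186.SD.sptb
  refine ⟨min ηL ηB, max (max nL nB) (max 2000 ⌈1 / η⌉₊), lt_min hηL hηB,
    le_max_of_le_left (le_max_of_le_left hnL), ?_⟩
  intro T n J s hT hn hnT hs1 hs2 h0 hG hfar
  have hnL' : nL ≤ n := (le_max_left _ _).trans ((le_max_left _ _).trans hn)
  have hnB' : nB ≤ n := (le_max_right _ _).trans ((le_max_left _ _).trans hn)
  have hn2000 : (2000 : ℝ) ≤ n := by
    have : 2000 ≤ n := (le_max_left _ _).trans ((le_max_right _ _).trans hn)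
    exact_mod_cast this
  have hnη : 1 / η ≤ n := by
    have : ⌈1 / η⌉₊ ≤ n := (le_max_right _ _).trans ((le_max_right _ _).trans hn)
    exact (Nat.le_ceil _).trans (by exact_mod_cast this)
  rw [div_le_iff₀ hη0] at hnη
  have hnpos : (0 : ℝ) < n := by linarith
  obtain ⟨l, hl⟩ : ∃ l : ℝ, l = Real.log T := ⟨_, rfl⟩
  rw [← hl] at hnT
  have hl0 : 0 < l := by linarith
  obtain ⟨y, hy⟩ : ∃ y : ℝ, y = s.im := ⟨_, rfl⟩
  rw [← hy] at hs1 hs2 hG hfar
  obtain ⟨r0, hr0⟩ : ∃ r0 : ℝ, r0 = ra T (2 ^ 0 * n) := ⟨_, rfl⟩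
  have hr0e : r0 = 2 * n / l := by
    rw [hr0, ra_eq, hl]
    ring
  have hr0p : 0 < r0 := by rw [hr0e]; positivity
  have hr0s : r0 ≤ 1 / 200 := by
    rw [hr0e, div_le_iff₀ hl0]
    linarith
  have hrj : ∀ j : ℕ, r0 ≤ ra T (2 ^ j * n) := by
    intro j
    rw [hr0e, ra_eq, ← hl]
    apply div_le_div_of_nonneg_right _ hl0.le
    have h1 : (1 : ℝ) ≤ 2 ^ j := one_le_pow₀ (by norm_num)
    nlinarith
  -- zeros near `y` are not bad
  have hnb : ∀ w : ℂ, iteratedDeriv n XX w = 0 → |w.im - y| ≤ r0 / 200 → w.re = 0 ∧ iteratedDeriv (n + 1) XX w ≠ 0 := by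
    intro w hw0 hw
    by_contra hcon
    have hbad : bad n w := by
      refine ⟨hw0, ?_⟩
      by_contra h3
      push Not at h3
      exact hcon h3
    have hLoc : Loc ηB T n 0 J w.im := by
      intro j _ hj
      obtain ⟨t', ht', hN⟩ := hG j hj
      refine ⟨t', ?_, NN_mono hN (min_le_right _ _) (by positivity)⟩
      have h4 : |w.im - t'| ≤ |w.im - y| + |y - t'| := abs_sub_le _ _ _
      have h5 := hrj j
      linarith
    have h6 := hptB T n J w hT hnB' hbad hLoc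
    have h7 := hfar w hbad (hw.trans (by linarith))
    linarith
  have hsnb := hnb s h0 (by rw [hy, sub_self, abs_zero]; positivity)
  obtain ⟨t0, ht0, hN0⟩ := hG 0 (Nat.zero_le _)
  rw [← hr0] at ht0 hN0
  have hNn : NN n ηL (fun z => XX (I * t0 + r0 * z)) := by
    have h3 := NN_mono hN0 (min_le_left ηL ηB) (by positivity)
    rw [pow_zero, one_mul] at h3
    exact h3
  obtain ⟨v0, hv0⟩ : ∃ v0 : ℝ, v0 = (y - t0) / r0 := ⟨_, rfl⟩
  have hv0e : t0 + r0 * v0 = y := by rw [hv0]; field_simp; ring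
  have hv0b : |v0| ≤ 1 / 100 := by
    rw [hv0, abs_div, abs_of_pos hr0p, div_le_iff₀ hr0p]
    linarith
  have hse : s = (y : ℂ) * I := by
    apply Complex.ext
    · simp [hsnb.1]
    · simp [hy]
  have hpt : ∀ v : ℝ, I * (t0 : ℂ) + (r0 : ℂ) * ((v : ℂ) * I) = ((t0 + r0 * v : ℝ) : ℂ) * I := by
    intro v
    push_cast
    ring
  have hderiv : ∀ v : ℝ, iteratedDeriv n (fun z => XX (I * t0 + r0 * z)) ((v : ℂ) * I) =
      (r0 : ℂ) ^ n * iteratedDeriv n XX (((t0 + r0 * v : ℝ) : ℂ) * I) := by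
    intro v
    rw [iter_comp, hpt]
  have hr0c : (r0 : ℂ) ^ n ≠ 0 := pow_ne_zero _ (by exact_mod_cast hr0p.ne')
  obtain ⟨v1, h1, h2, h3, h4, h5⟩ := hloc n _ hnL' hNn v0 hv0b (by
    rw [hderiv, hv0e, ← hse, h0, mul_zero])
  obtain ⟨y1, hy1⟩ : ∃ y1 : ℝ, y1 = t0 + r0 * v1 := ⟨_, rfl⟩
  have hdy : y1 - y = r0 * (v1 - v0) := by rw [hy1, ← hv0e]; ring
  have hdy0 : 0 < y1 - y := by rw [hdy]; exact mul_pos hr0p (by linarith)
  have hnv : n * (v1 - v0) = l / 2 * (y1 - y) := by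
    rw [hdy, hr0e]
    field_simp
  rw [hnv] at h4 h5
  have hpi4 := Real.pi_lt_four
  have hsmall : y1 - y ≤ r0 / 200 := by
    have h6 : (1 - η / 4) * (l / 2 * (y1 - y)) ≤ 4 := by linarith
    have h7 : 3 / 4 * (l / 2 * (y1 - y)) ≤ 4 := by
      have : 0 ≤ l / 2 * (y1 - y) := by positivity
      nlinarith
    have h8 : l * (y1 - y) ≤ l * (r0 / 200) := by
      have : l * (r0 / 200) = n / 100 := by
        rw [hr0e]
        field_simp
        norm_num
      rw [this]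
      linarith
    exact le_of_mul_le_mul_left h8 hl0
  refine ⟨hsnb.1, hsnb.2, y1, by rw [← hy]; linarith, ?_, ?_, ?_⟩
  · rw [hderiv, mul_eq_zero] at h2
    rw [hy1]
    exact h2.resolve_left hr0c
  · intro w hw0 hw
    rw [← hy] at hw
    by_contra hcon
    push Not at hcon
    have h6 := (hnb w hw0 (by rw [abs_of_pos (by linarith)]; linarith)).1
    have h7 : w = ((t0 + r0 * ((w.im - t0) / r0) : ℝ) : ℂ) * I := by
      have e : t0 + r0 * ((w.im - t0) / r0) = w.im := by field_simp; ring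
      rw [e]
      apply Complex.ext
      · simp [h6]
      · simp
    refine h3 ((w.im - t0) / r0) ?_ ?_ ?_
    · rw [hv0]
      apply div_lt_div_of_pos_right _ hr0p
      linarith
    · rw [div_lt_iff₀ hr0p]
      rw [hy1] at hcon
      linarith
    · rw [hderiv, ← h7, hw0, mul_zero]
  · rw [← hy]
    have hlogy1 : l ≤ Real.log y := by
      rw [hl]
      exact Real.log_le_log (by linarith) hs1.le
    have hlogy2 : Real.log y ≤ l + 1 := by
      have h6 : Real.log y ≤ Real.log (2 * T) := Real.log_le_log (by linarith) hs2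
      rw [Real.log_mul (by norm_num) (by linarith), ← hl] at h6
      have h7 : Real.log 2 ≤ 1 := by
        have := Real.log_le_sub_one_of_pos (show (0 : ℝ) < 2 by norm_num)
        linarith
      linarith
    have e : 1 / 2 * Real.log y * (y1 - y) / Real.pi - 1 = (1 / 2 * Real.log y * (y1 - y)) / Real.pi - 1 := rfl
    rw [e]
    refine nice_aux (a := l / 2 * (y1 - y)) (l := l / 2) (q := (Real.log y - l) / 2) (d := y1 - y) hη0 hη1 Real.pi_pos
      hdy0 (by positivity) rfl (by ring) (by linarith) ?_ h4 h5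
    have h8 : 400 * (n * η) ≤ l * η := by nlinarith
    nlinarith

end Pool.Agent.Q278.DE
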