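import Pool.Agent.Q278.DE.D
import Pool.Agent.W571.SD.Mid

set_option autoImplicit false

/-!
# Dyadic windows: all but few zeros of the derivative are nice
-/

namespace Pool.Agent.Q278.DE

open Complex Filter Topology MeasureTheory Set
open Pool.Agent.H24R2.JP (XX)
open Pool.Agent.H24R2.DZ
open W327.SD (iter_comp NN_mono ra_pos)
open Pool.Agent.W571.SD (ra_eq cover wt wt_nonneg window BB geo nn_mono)

theorem int_sub_H {η T : ℝ} {n j : ℕ} {t δ : ℝ} (hT : 2 ≤ T) (h1 : T < t) (h2 : t ≤ 2 * T)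
    (hδ : δ = ra T (2 ^ j * n) / 200) (hδ1 : δ ≤ 1) (hG : ¬ GH η T n j t) :
    Icc (t - δ) (t + δ) ⊆ BB η T (2 ^ j * n) := by
  intro x hx
  refine ⟨by linarith [hx.1], by linarith [hx.2], fun hN => hG ⟨x, ?_, hN⟩⟩
  rw [← hδ, abs_le]
  constructor <;> linarith [hx.1, hx.2]

/-- **Dyadic windows.** -/
theorem mid {ηm : ℝ} (hηm0 : 0 < ηm) (hηm1 : ηm ≤ 1) : ∃ c C T0 : ℝ, ∃ n0 : ℕ, 0 < c ∧ 0 < C ∧ 2 ≤ T0 ∧
    ∀ (T : ℝ) (n : ℕ), T0 ≤ T → n0 ≤ n → (n : ℝ) ≤ Real.log T / 400 → ∀ S : Finset ℂ,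
    (∀ s ∈ S, (iteratedDeriv n XX s = 0 ∧ ¬ NiceD n ηm s) ∧ T < s.im ∧ s.im ≤ 2 * T) →
    ∑ s ∈ S, (analyticOrderNatAt (iteratedDeriv n XX) s : ℝ) ≤ C * T * Real.exp (-(c * n)) * Real.log T := by
  classical
  have hstrip : SStrip := Pool.Agent.H24R2.DZ.strip
  have h1 : SC1 := Pool.Agent.W186.SD.sc1
  have h2 : SC2 := Pool.Agent.W186.SD.sc2
  have h3 : SFar := W327.SD.sfar
  have h5 : SUnit := Pool.Agent.W186.SD.sunit
  have h6 : SCir := Pool.Agent.W186.SD.scir
  have hdiff : Differentiable ℂ XX := W327.SD.XX_diff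
  obtain ⟨η4, C4, hη4, hC4, hcount⟩ := Pool.Agent.W186.SD.scount
  obtain ⟨η7, hη7, hptA⟩ := Pool.Agent.W186.SD.spta
  obtain ⟨η8, n8, hη8, hn8, hnice⟩ := nice_of_good hηm0 hηm1
  set η := min η4 (min η7 η8) with hηd
  have hη : 0 < η := lt_min hη4 (lt_min hη7 hη8)
  have hηη4 : η ≤ η4 := min_le_left _ _
  have hηη7 : η ≤ η7 := (min_le_right _ _).trans (min_le_left _ _)
  have hηη8 : η ≤ η8 := (min_le_right _ _).trans (min_le_right _ _)
  obtain ⟨η1, ε1, hη1, hε1, hsc2⟩ := h2 η hη
  obtain ⟨θ, c1, C1, a1, T1, hθ, hθ', hc1, hC1, ha1, hT1, hsc1⟩ := h1 η1 ε1 hη1 hε1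
  obtain ⟨a2, T2, hsc2'⟩ := hsc2 θ hθ hθ'
  obtain ⟨c3, C3, T3, hc3, hC3, hT3, hfar⟩ := h3
  obtain ⟨C5, T5, hC5, hT5, hunit⟩ := h5
  have hq1 : Real.exp (-c1) < 1 := Real.exp_lt_one_iff.2 (by linarith)
  set Q : ℝ := 1 / (1 - Real.exp (-c1)) with hQ
  have hQ0 : 0 < Q := by rw [hQ]; apply one_div_pos.2; linarith
  refine ⟨min c1 c3, 80000 * C5 * C1 + 100 * C4 * C1 * Q + 4 * C5 * C3 / c3,
    max (max (max T1 T2) T3) (max (2 * T5) 1000), max n8 (max ⌈a1⌉₊ (max ⌈a2⌉₊ 1)),
    lt_min hc1 hc3, by positivity, ?_, ?_⟩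
  · exact le_trans (by norm_num) ((le_max_right _ _).trans (le_max_right _ _))
  intro T n hT hn hnL S hS
  -- unpack the sizes
  have hTT1 : T1 ≤ T := ((le_max_left _ _).trans ((le_max_left _ _).trans (le_max_left _ _))).trans hT
  have hTT2 : T2 ≤ T := ((le_max_right _ _).trans ((le_max_left _ _).trans (le_max_left _ _))).trans hT
  have hTT3 : T3 ≤ T := ((le_max_right _ _).trans (le_max_left _ _)).trans hT
  have hTT5 : 2 * T5 ≤ T := ((le_max_left _ _).trans (le_max_right _ _)).trans hT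
  have hT1000 : 1000 ≤ T := ((le_max_right _ _).trans (le_max_right _ _)).trans hT
  have hT0 : 0 < T := by linarith
  have hn8' : n8 ≤ n := (le_max_left _ _).trans hn
  have hna1 : a1 ≤ n := by
    have : ⌈a1⌉₊ ≤ n := ((le_max_left _ _).trans (le_max_right _ _)).trans hn
    exact (Nat.le_ceil a1).trans (by exact_mod_cast this)
  have hna2 : a2 ≤ n := by
    have : ⌈a2⌉₊ ≤ n := ((le_max_left _ _).trans ((le_max_right _ _).trans (le_max_right _ _))).trans hn
    exact (Nat.le_ceil a2).trans (by exact_mod_cast this)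
  have hn1 : 1 ≤ n := ((le_max_right _ _).trans ((le_max_right _ _).trans (le_max_right _ _))).trans hn
  have hn1' : (1 : ℝ) ≤ n := by exact_mod_cast hn1
  set L := Real.log T with hL
  have hL400 : 400 ≤ L := by linarith
  have hL0 : 0 < L := by linarith
  have hLT : L ≤ T := by
    have := Real.log_le_sub_one_of_pos hT0
    linarith
  have hlog3 : Real.log (3 * T) ≤ 2 * L := by
    rw [Real.log_mul (by norm_num) hT0.ne']
    have : Real.log 3 ≤ 2 := by
      have := Real.log_le_sub_one_of_pos (show (0 : ℝ) < 3 by norm_num)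
      linarith
    linarith
  have hloghalf : ∀ x : ℝ, T / 2 ≤ x → (n : ℝ) ≤ 60 * Real.log x := by
    intro x hx
    have h10 : Real.log (T / 2) ≤ Real.log x := Real.log_le_log (by positivity) hx
    have h11 : Real.log (T / 2) = L - Real.log 2 := by
      rw [Real.log_div hT0.ne' (by norm_num)]
    have h12 : Real.log 2 ≤ 1 := by
      have := Real.log_le_sub_one_of_pos (show (0 : ℝ) < 2 by norm_num)
      linarith
    linarith
  obtain ⟨J, hJ1, hJ2, hJ3⟩ := Pool.Agent.W571.SD.exists_J hn1 hnL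
  -- the radii
  have hr : ∀ j : ℕ, ra T (2 ^ j * n) = 2 * (2 ^ j * n) / L := fun j => ra_eq _ _
  have hrpos : ∀ j : ℕ, 0 < ra T (2 ^ j * n) := by
    intro j; rw [hr]; positivity
  have hrJ1 : ra T (2 ^ J * n) ≤ 1 / 100 := by
    rw [hr, div_le_iff₀ hL0]; linarith
  have hrJ2 : 1 / 200 < ra T (2 ^ J * n) := by
    rw [hr, lt_div_iff₀ hL0]; linarith
  have hpow : ∀ j : ℕ, j ≤ J → (2 : ℝ) ^ j * n ≤ L / 200 := by
    intro j hj
    refine le_trans ?_ hJ2
    apply mul_le_mul_of_nonneg_right _ (by positivity)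
    exact pow_le_pow_right₀ (by norm_num) hj
  have hpow1 : ∀ j : ℕ, (n : ℝ) ≤ 2 ^ j * n := by
    intro j
    exact le_mul_of_one_le_left (by positivity) (one_le_pow₀ (by norm_num))
  have hrj : ∀ j : ℕ, j ≤ J → ra T (2 ^ j * n) ≤ 1 / 100 := by
    intro j hj
    rw [hr, div_le_iff₀ hL0]
    have := hpow j hj
    linarith
  -- bad heights
  have hBvol : ∀ j : ℕ, j ≤ J → volume (BB η T (2 ^ j * n)) ≤
      ENNReal.ofReal (C1 * T * Real.exp (-(c1 * (2 ^ j * n)))) := by
    intro j hj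
    refine le_trans (measure_mono ?_) (hsc1 T (2 ^ j * n) hTT1 (hna1.trans (hpow1 j)) (hpow j hj))
    intro t0 ht0
    refine ⟨ht0.1, ht0.2.1, fun hG => ht0.2.2 ?_⟩
    exact hsc2' T (2 ^ j * n) t0 hTT2 (hna2.trans (hpow1 j)) (hpow j hj) ht0.1 ht0.2.1 hG
  -- covering of `S`
  obtain ⟨Fa, hFa⟩ : ∃ Fa : ℂ → Prop, Fa = fun s => ∃ w, bad n w ∧ 5 * ra T (2 ^ J * n) < |w.re| ∧
    |w.im - s.im| ≤ 1 := ⟨_, rfl⟩
  have hcov : ∀ s ∈ S, ¬ GH η T n J s.im ∨ Fa s ∨
      ∃ i < J, ¬ GH η T n i s.im ∧ GH η T n (i + 1) s.im ∧ |s.re| ≤ 5 * ra T (2 ^ (i + 1) * n) := by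
    intro s hs
    obtain ⟨hbad, hs1, hs2⟩ := hS s hs
    by_cases hc : GH η T n J s.im
    swap
    · exact Or.inl hc
    by_cases hf : Fa s
    · exact Or.inr (Or.inl hf)
    right; right
    have hf2 : ∀ w, bad n w → |w.im - s.im| ≤ 1 → |w.re| ≤ 5 * ra T (2 ^ J * n) := by
      intro w hw1 hw2
      by_contra hcon
      push Not at hcon
      exact hf (by rw [hFa]; exact ⟨w, hw1, hcon, hw2⟩)
    have hf3 : |s.re| ≤ 5 * ra T (2 ^ J * n) := by
      by_cases h0 : s.re = 0
      · rw [h0, abs_zero]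
        have := hrpos J
        positivity
      · exact hf2 s ⟨hbad.1, Or.inl h0⟩ (by simp)
    have hgh : ∀ (η' : ℝ) (j : ℕ), η ≤ η' → GH η T n j s.im → GH η' T n j s.im := by
      intro η' j hη' h
      obtain ⟨t', ht1, ht2⟩ := h
      exact ⟨t', ht1, NN_mono ht2 hη' (by positivity)⟩
    have hloc : ∀ (η' : ℝ) (j0 : ℕ), η ≤ η' → (∀ j, j0 ≤ j → j ≤ J → GH η T n j s.im) →
        Loc η' T n j0 J s.im := by
      intro η' j0 hη' h j hj1 hj2
      obtain ⟨t', ht1, ht2⟩ := h j hj1 hj2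
      have := hrpos j
      exact ⟨t', by linarith, NN_mono ht2 hη' (by positivity)⟩
    by_cases hall : ∀ j, j ≤ J → GH η T n j s.im
    · exfalso
      exact hbad.2 (hnice T n J s (by linarith) hn8' hnL hs1 hs2 hbad.1 (fun j hj => hgh η8 j hηη8 (hall j hj)) hf2)
    · push Not at hall
      obtain ⟨j1, hj1, hj1'⟩ := hall
      set i := Nat.findGreatest (fun j => ¬ GH η T n j s.im) J with hi
      have hi1 : ¬ GH η T n i s.im :=
        Nat.findGreatest_spec (P := fun j => ¬ GH η T n j s.im) hj1 hj1'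
      have hi2 : i ≤ J := Nat.findGreatest_le J
      have hi3 : i < J := by
        rcases hi2.lt_or_eq with h | h
        · exact h
        · rw [h] at hi1; exact absurd hc hi1
      have hi4 : ∀ j, i + 1 ≤ j → j ≤ J → GH η T n j s.im := by
        intro j hj1 hj2
        by_contra hcon
        have := Nat.le_findGreatest (P := fun j => ¬ GH η T n j s.im) hj2 hcon
        rw [← hi] at this
        omega
      refine ⟨i, hi3, hi1, hi4 (i + 1) le_rfl hi3, ?_⟩
      have h10 := hptA T n J (i + 1) s (by linarith) hn1 hi3 hbad.1 (hloc η7 (i + 1) hηη7 hi4)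
      rcases h10 with h10 | h10
      · exact h10
      · linarith
  have hsplit := Pool.Agent.W571.SD.split3 (wt n) (wt_nonneg n) S (fun s => ¬ GH η T n J s.im)
    Fa
    (fun i s => ¬ GH η T n i s.im ∧ GH η T n (i + 1) s.im ∧ |s.re| ≤ 5 * ra T (2 ^ (i + 1) * n))
    J hcov
  -- the class (c)
  have hbc : ∑ s ∈ S.filter (fun s => ¬ GH η T n J s.im), wt n s ≤
      80000 * C5 * C1 * T * Real.exp (-(c1 * n)) * L := by
    have hδ0 : 0 < ra T (2 ^ J * n) / 200 := by have := hrpos J; positivity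
    have h10 := cover (wt n) (wt_nonneg n) (fun s => s.im) (ra T (2 ^ J * n) / 200) (4 * C5 * L)
      hδ0 (by positivity) (S.filter (fun s => ¬ GH η T n J s.im))
      (BB η T (2 ^ J * n)) (C1 * T * Real.exp (-(c1 * (2 ^ J * n)))) (by positivity)
      (by
        intro s hs
        rw [Finset.mem_filter] at hs
        obtain ⟨hbad, hs1, hs2⟩ := hS s hs.1
        exact int_sub_H (by linarith) hs1 hs2 rfl (by linarith) hs.2)
      (hBvol J le_rfl)
      (by
        intro s0 hs0
        obtain ⟨hbad0, hs1, hs2⟩ := hS s0 ((Finset.filter_subset _ _) hs0)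
        have h11 := window hC5 hT5 hunit n (s0.im - 2 * (ra T (2 ^ J * n) / 200))
          (4 * (ra T (2 ^ J * n) / 200)) (by linarith) (hloghalf _ (by linarith)) (by positivity)
          ((S.filter (fun s => ¬ GH η T n J s.im)).filter
            (fun s' => |s'.im - s0.im| ≤ 2 * (ra T (2 ^ J * n) / 200))) (by
            intro s hs
            rw [Finset.mem_filter] at hs
            obtain ⟨hbad, hs3, hs4⟩ := hS s ((Finset.filter_subset _ _) hs.1)
            have := abs_le.1 hs.2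
            exact ⟨by linarith, by linarith, hbad.1⟩)
        refine h11.trans ?_
        have h12 : Real.log (s0.im - 2 * (ra T (2 ^ J * n) / 200) + 4 * (ra T (2 ^ J * n) / 200)) ≤
            2 * L := (Real.log_le_log (by linarith) (by linarith)).trans hlog3
        have h13 : 4 * (ra T (2 ^ J * n) / 200) + 1 ≤ 2 := by linarith
        calc (4 * (ra T (2 ^ J * n) / 200) + 1) *
              (C5 * Real.log (s0.im - 2 * (ra T (2 ^ J * n) / 200) + 4 * (ra T (2 ^ J * n) / 200)))
            ≤ 2 * (C5 * (2 * L)) := by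
              apply mul_le_mul h13 (mul_le_mul_of_nonneg_left h12 hC5.le) _ (by norm_num)
              apply mul_nonneg hC5.le (Real.log_nonneg (by linarith))
          _ = 4 * C5 * L := by ring)
    refine h10.trans ?_
    rw [div_le_iff₀ (by positivity)]
    have h14 : Real.exp (-(c1 * (2 ^ J * n))) ≤ Real.exp (-(c1 * n)) := by
      apply Real.exp_le_exp.2
      have := mul_le_mul_of_nonneg_left (hpow1 J) hc1.le
      linarith
    have h15 : (1 : ℝ) / 20000 ≤ 2 * (ra T (2 ^ J * n) / 200) := by linarith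
    have h16 : 0 ≤ 80000 * C5 * C1 * T * Real.exp (-(c1 * n)) * L := by positivity
    calc 4 * C5 * L * (C1 * T * Real.exp (-(c1 * (2 ^ J * n))))
        ≤ 4 * C5 * L * (C1 * T * Real.exp (-(c1 * n))) := by gcongr
      _ = 80000 * C5 * C1 * T * Real.exp (-(c1 * n)) * L * (1 / 20000) := by ring
      _ ≤ _ := mul_le_mul_of_nonneg_left h15 h16
  -- the classes (b)
  have hbi : ∀ i ∈ Finset.range J, ∑ s ∈ S.filter (fun s => ¬ GH η T n i s.im ∧
      GH η T n (i + 1) s.im ∧ |s.re| ≤ 5 * ra T (2 ^ (i + 1) * n)), wt n s ≤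
      100 * C4 * C1 * T * L * Real.exp (-(c1 * (2 ^ i * n))) := by
    intro i hi
    rw [Finset.mem_range] at hi
    have hri := hrpos i
    have hri1 := hrpos (i + 1)
    have hdouble : ra T (2 ^ (i + 1) * n) = 2 * ra T (2 ^ i * n) := by
      rw [hr, hr, pow_succ]; ring
    have hδ0 : 0 < ra T (2 ^ i * n) / 200 := by positivity
    have h10 := cover (wt n) (wt_nonneg n) (fun s => s.im) (ra T (2 ^ i * n) / 200)
      (C4 * (2 ^ (i + 1) * n)) hδ0 (by positivity)
      (S.filter (fun s => ¬ GH η T n i s.im ∧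
        GH η T n (i + 1) s.im ∧ |s.re| ≤ 5 * ra T (2 ^ (i + 1) * n)))
      (BB η T (2 ^ i * n)) (C1 * T * Real.exp (-(c1 * (2 ^ i * n)))) (by positivity)
      (by
        intro s hs
        rw [Finset.mem_filter] at hs
        obtain ⟨hbad, hs1, hs2⟩ := hS s hs.1
        exact int_sub_H (by linarith) hs1 hs2 rfl (by linarith [hrj i hi.le]) hs.2.1)
      (hBvol i hi.le)
      (by
        intro s0 hs0
        rw [Finset.mem_filter] at hs0
        obtain ⟨hs0S, -, ⟨t', ht1, ht2⟩, -⟩ := hs0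
        have h11 := hcount (2 ^ (i + 1) * n) (ra T (2 ^ (i + 1) * n)) t' n XX
          (hn1'.trans (hpow1 _)) (hpow1 _) hri1 hdiff (nn_mono (by positivity) hηη4 ht2)
          ((S.filter (fun s => ¬ GH η T n i s.im ∧
            GH η T n (i + 1) s.im ∧ |s.re| ≤ 5 * ra T (2 ^ (i + 1) * n))).filter
            (fun s' => |s'.im - s0.im| ≤ 2 * (ra T (2 ^ i * n) / 200))) (by
            intro s hs
            rw [Finset.mem_filter, Finset.mem_filter] at hs
            obtain ⟨⟨hsS, -, -, hre⟩, him⟩ := hs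
            refine ⟨?_, (hS s hsS).1.1⟩
            have h12 : (s - I * t').re = s.re := by simp
            have h13 : (s - I * t').im = s.im - t' := by simp
            have h14 := Complex.norm_le_abs_re_add_abs_im (s - I * t')
            rw [h12, h13] at h14
            have h15 : |s.im - t'| ≤ |s.im - s0.im| + |s0.im - t'| := abs_sub_le _ _ _
            linarith)
        exact h11)
    refine h10.trans (le_of_eq ?_)
    rw [hr i, pow_succ]
    field_simp
    ring
  have hbb : ∑ i ∈ Finset.range J, ∑ s ∈ S.filter (fun s => ¬ GH η T n i s.im ∧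
      GH η T n (i + 1) s.im ∧ |s.re| ≤ 5 * ra T (2 ^ (i + 1) * n)), wt n s ≤
      100 * C4 * C1 * Q * T * Real.exp (-(c1 * n)) * L := by
    refine (Finset.sum_le_sum hbi).trans ?_
    rw [← Finset.mul_sum]
    calc 100 * C4 * C1 * T * L * ∑ i ∈ Finset.range J, Real.exp (-(c1 * (2 ^ i * n)))
        ≤ 100 * C4 * C1 * T * L * (Real.exp (-(c1 * n)) * Q) :=
          mul_le_mul_of_nonneg_left (geo c1 hc1 n J hn1) (by positivity)
      _ = _ := by ring
  -- the far zeros
  have hbf : ∑ s ∈ S.filter Fa, wt n s ≤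
      4 * C5 * C3 / c3 * T * Real.exp (-(c3 * n)) * L := by
    have hZ : ∀ s : ℂ, ∃ z : ℂ, Fa s → bad 0 z ∧ 5 * ra T (2 ^ J * n) < |z.re| ∧ |s.im - z.im| ≤ n / 2 + 1 := by
      intro s
      by_cases hb : Fa s
      · have hb' := hb
        rw [hFa] at hb'
        obtain ⟨w, hw1, hw2, hw3⟩ := hb'
        obtain ⟨z, hz1, hz2, hz3⟩ := Pool.Agent.W571.SD.iter_cir hstrip h6 0 n w (by rw [zero_add]; exact hw1)
        refine ⟨z, fun _ => ⟨hz1, lt_of_lt_of_le hw2 hz2, ?_⟩⟩
        have h20 : |s.im - z.im| ≤ |s.im - w.im| + |w.im - z.im| := abs_sub_le _ _ _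
        rw [abs_sub_comm s.im w.im] at h20
        linarith
      · exact ⟨0, fun h => absurd h hb⟩
    choose Z hZ using hZ
    have hE := hfar T hTT3
    have h10 := cover (wt n) (wt_nonneg n) (fun s => (Z s).im) 1 (4 * C5 * L ^ 2)
      one_pos (by positivity) (S.filter Fa)
      _ (C3 * T ^ (1 - c3)) (by positivity)
      (by
        intro s hs
        rw [Finset.mem_filter] at hs
        obtain ⟨hbad, hs1, hs2⟩ := hS s hs.1
        obtain ⟨hz1, hz2, hz3⟩ := hZ s hs.2
        have hz4 := abs_le.1 hz3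
        intro x hx
        refine ⟨?_, ?_, Z s, ?_, ?_, ?_⟩
        · linarith [hx.1, hz4.1, hz4.2]
        · linarith [hx.2, hz4.1, hz4.2]
        · have := hz1.1
          simpa using this
        · linarith [hz2]
        · rw [abs_le]; constructor <;> linarith [hx.1, hx.2])
      hE
      (by
        intro s0 hs0
        obtain ⟨hbad0, hs1, hs2⟩ := hS s0 ((Finset.filter_subset _ _) hs0)
        obtain ⟨-, -, hz3⟩ := hZ s0 (Finset.mem_filter.1 hs0).2
        have hz4 := abs_le.1 hz3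
        have h11 := window hC5 hT5 hunit n ((Z s0).im - 3 - n / 2) (6 + n) (by linarith)
          (hloghalf _ (by linarith)) (by positivity)
          ((S.filter Fa).filter
            (fun s' => |(Z s').im - (Z s0).im| ≤ 2 * 1)) (by
            intro s hs
            rw [Finset.mem_filter] at hs
            obtain ⟨hbad, hs3, hs4⟩ := hS s ((Finset.filter_subset _ _) hs.1)
            obtain ⟨-, -, hz5⟩ := hZ s (Finset.mem_filter.1 hs.1).2
            have h12 := abs_le.1 hs.2
            have h13 := abs_le.1 hz5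
            exact ⟨by linarith, by linarith, hbad.1⟩)
        refine h11.trans ?_
        have h12 : Real.log ((Z s0).im - 3 - n / 2 + (6 + n)) ≤
            2 * L := (Real.log_le_log (by linarith) (by linarith)).trans hlog3
        have h13 : (6 : ℝ) + n + 1 ≤ 2 * L := by linarith
        calc (6 + (n : ℝ) + 1) * (C5 * Real.log ((Z s0).im - 3 - n / 2 + (6 + n)))
            ≤ (2 * L) * (C5 * (2 * L)) := by
              apply mul_le_mul h13 (mul_le_mul_of_nonneg_left h12 hC5.le) _ (by positivity)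
              apply mul_nonneg hC5.le (Real.log_nonneg (by linarith))
          _ = 4 * C5 * L ^ 2 := by ring)
    refine h10.trans ?_
    have hTc : T ^ (1 - c3) = T * Real.exp (-(c3 * L)) := by
      rw [Real.rpow_sub hT0, Real.rpow_one, Real.rpow_def_of_pos hT0, div_eq_mul_inv, ← Real.exp_neg]
      congr 3
      ring
    rw [hTc]
    have h14 : L * Real.exp (-(c3 * L)) ≤ 2 / c3 * Real.exp (-(c3 * n)) := by
      have h15 : c3 * L / 2 ≤ Real.exp (c3 * L / 2) := by
        have := Real.add_one_le_exp (c3 * L / 2)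
        linarith
      have h16 : Real.exp (-(c3 * L)) * Real.exp (c3 * L / 2) ≤ Real.exp (-(c3 * n)) := by
        rw [← Real.exp_add]
        apply Real.exp_le_exp.2
        have : c3 * n ≤ c3 * (L / 400) := mul_le_mul_of_nonneg_left hnL hc3.le
        have h17 : 0 < c3 * L := by positivity
        linarith
      have h18 : L * Real.exp (-(c3 * L)) = 2 / c3 * (c3 * L / 2 * Real.exp (-(c3 * L))) := by
        field_simp
      rw [h18]
      apply mul_le_mul_of_nonneg_left _ (by positivity)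
      calc c3 * L / 2 * Real.exp (-(c3 * L)) ≤ Real.exp (c3 * L / 2) * Real.exp (-(c3 * L)) :=
            mul_le_mul_of_nonneg_right h15 (Real.exp_pos _).le
        _ = Real.exp (-(c3 * L)) * Real.exp (c3 * L / 2) := mul_comm _ _
        _ ≤ _ := h16
    calc 4 * C5 * L ^ 2 * (C3 * (T * Real.exp (-(c3 * L)))) / (2 * 1)
        = 2 * C5 * C3 * T * L * (L * Real.exp (-(c3 * L))) := by ring
      _ ≤ 2 * C5 * C3 * T * L * (2 / c3 * Real.exp (-(c3 * n))) :=
          mul_le_mul_of_nonneg_left h14 (by positivity)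
      _ = _ := by ring
  -- conclusion
  have he1 : Real.exp (-(c1 * n)) ≤ Real.exp (-(min c1 c3 * n)) := by
    apply Real.exp_le_exp.2
    have := mul_le_mul_of_nonneg_right (min_le_left c1 c3) (Nat.cast_nonneg (α := ℝ) n)
    linarith
  have he3 : Real.exp (-(c3 * n)) ≤ Real.exp (-(min c1 c3 * n)) := by
    apply Real.exp_le_exp.2
    have := mul_le_mul_of_nonneg_right (min_le_right c1 c3) (Nat.cast_nonneg (α := ℝ) n)
    linarith
  have hfin : ∑ s ∈ S, wt n s ≤ (80000 * C5 * C1 + 100 * C4 * C1 * Q + 4 * C5 * C3 / c3) * T *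
      Real.exp (-(min c1 c3 * n)) * L := by
    calc ∑ s ∈ S, wt n s ≤ _ := hsplit
      _ ≤ 80000 * C5 * C1 * T * Real.exp (-(c1 * n)) * L +
          4 * C5 * C3 / c3 * T * Real.exp (-(c3 * n)) * L +
          100 * C4 * C1 * Q * T * Real.exp (-(c1 * n)) * L := by
          exact add_le_add (add_le_add hbc hbf) hbb
      _ ≤ 80000 * C5 * C1 * T * Real.exp (-(min c1 c3 * n)) * L +
          4 * C5 * C3 / c3 * T * Real.exp (-(min c1 c3 * n)) * L +
          100 * C4 * C1 * Q * T * Real.exp (-(min c1 c3 * n)) * L := by gcongr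
      _ = _ := by ring
  exact hfin


end Pool.Agent.Q278.DE
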