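import Pool.Agent.Q278.DE.E
import Pool.Agent.H24R2.JP.All
import Pool.Agent.H24R2.JP.Mom
import Pool.Agent.W125.SD.SUnitA

set_option autoImplicit false

/-!
# A crude uniform bound for the number of low zeros of the derivatives, and the dyadic sum
-/

namespace Pool.Agent.Q278.DE

open Complex Filter Topology MeasureTheory Set
open Pool.Agent.H24R2.JP (XX FF growT b1)
open Pool.Agent.H24R2.JP.MomAux (MM MM_ge MM_pos c0_pos iteratedDeriv_XX)
open Pool.Agent.H24R2.JP.B1h (odd_zero)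
open Pool.Agent.Helper242.KK (Ph)
open Pool.Agent.H24R2.DZ

theorem iter_iter (n j : ℕ) : iteratedDeriv j (iteratedDeriv n XX) = iteratedDeriv (n + j) XX := by
  rw [iteratedDeriv_eq_iterate, iteratedDeriv_eq_iterate, iteratedDeriv_eq_iterate,
    ← Function.iterate_add_apply, add_comm]

theorem coef_nonneg (m : ℕ) : 0 ≤ (iteratedDeriv m XX 0).re := by
  rcases Nat.even_or_odd' m with ⟨k, rfl | rfl⟩
  · rw [iteratedDeriv_XX, Complex.ofReal_re]
    exact (MM_pos k).le
  · rw [odd_zero]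
    simp

theorem coef_even (k : ℕ) : 8 * ∫ t : ℝ in (1:ℝ)..2, Ph t ≤ (iteratedDeriv (2 * k) XX 0).re := by
  rw [iteratedDeriv_XX, Complex.ofReal_re]
  exact MM_ge k

theorem low_one (n : ℕ) : 8 * ∫ t : ℝ in (1:ℝ)..2, Ph t ≤ ‖iteratedDeriv n XX 1‖ := by
  have hd : Differentiable ℂ (iteratedDeriv n XX) := Pool.Agent.W125.SD.iter_diff n
  have h1 := Complex.hasSum_taylorSeries_of_entire hd 0 1
  have h2 := Complex.hasSum_re h1
  have hnn : ∀ j : ℕ, 0 ≤ ((((j.factorial : ℂ))⁻¹ • ((1 : ℂ) - 0) ^ j • iteratedDeriv j (iteratedDeriv n XX) 0)).re := by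
    intro j
    rw [iter_iter, sub_zero, one_pow, one_smul, smul_eq_mul]
    have e : ((j.factorial : ℂ))⁻¹ = (((j.factorial : ℝ))⁻¹ : ℝ) := by push_cast; rfl
    rw [e, Complex.re_ofReal_mul]
    exact mul_nonneg (by positivity) (coef_nonneg _)
  have h3 : ∀ j : ℕ, j ≤ 1 → 8 * ∫ t : ℝ in (1:ℝ)..2, Ph t ≤ (iteratedDeriv (n + j) XX 0).re →
      8 * ∫ t : ℝ in (1:ℝ)..2, Ph t ≤ ‖iteratedDeriv n XX 1‖ := by
    intro j hj hle
    have h4 := h2.summable.le_tsum j (fun i _ => hnn i)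
    rw [h2.tsum_eq] at h4
    have h5 : (((j.factorial : ℂ))⁻¹ • ((1 : ℂ) - 0) ^ j • iteratedDeriv j (iteratedDeriv n XX) 0).re =
        (iteratedDeriv (n + j) XX 0).re := by
      rw [iter_iter, sub_zero, one_pow, one_smul, smul_eq_mul]
      have : j = 0 ∨ j = 1 := by omega
      rcases this with rfl | rfl <;> simp
    rw [h5] at h4
    exact hle.trans (h4.trans (Complex.re_le_norm _))
  rcases Nat.even_or_odd' n with ⟨k, hk | hk⟩
  · apply h3 0 (by norm_num)
    rw [add_zero, hk]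
    exact coef_even k
  · apply h3 1 le_rfl
    have : n + 1 = 2 * (k + 1) := by omega
    rw [this]
    exact coef_even (k + 1)

theorem XX_grow : ∃ K : ℝ, 0 < K ∧ ∀ z : ℂ, ‖XX z‖ ≤ Real.exp (K * (1 + ‖z‖ ^ 2)) := by
  obtain ⟨K, hK⟩ := growT
  refine ⟨|K| + 1, by positivity, fun z => ?_⟩
  rw [← b1.2.1 z]
  refine (hK _).trans ?_
  apply Real.exp_le_exp.2
  rw [norm_pow]
  have h1 : (1 + ‖z‖ ^ 2) ^ (3 / 4 : ℝ) ≤ 1 + ‖z‖ ^ 2 := by
    conv_rhs => rw [← Real.rpow_one (1 + ‖z‖ ^ 2)]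
    apply Real.rpow_le_rpow_of_exponent_le _ (by norm_num)
    nlinarith [norm_nonneg z]
  have h0 : 0 ≤ (1 + ‖z‖ ^ 2) ^ (3 / 4 : ℝ) := by positivity
  have h2 : K ≤ |K| + 1 := by linarith [le_abs_self K]
  calc K * (1 + ‖z‖ ^ 2) ^ (3 / 4 : ℝ) ≤ (|K| + 1) * (1 + ‖z‖ ^ 2) ^ (3 / 4 : ℝ) := by gcongr
    _ ≤ (|K| + 1) * (1 + ‖z‖ ^ 2) := by gcongr

/-- the number of low zeros, crudely but uniformly in `n` -/
theorem low_count : ∃ K : ℝ, 0 < K ∧ ∀ (n : ℕ) (H : ℝ), 1 ≤ H → ∀ S : Finset ℂ,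
    (∀ s ∈ S, iteratedDeriv n XX s = 0 ∧ |s.im| ≤ H) →
    ∑ s ∈ S, (analyticOrderNatAt (iteratedDeriv n XX) s : ℝ) ≤ K * (n ^ 2 + H ^ 2) := by
  obtain ⟨K, hK, hg⟩ := XX_grow
  obtain ⟨c0, hc0⟩ : ∃ c0 : ℝ, c0 = 8 * ∫ t : ℝ in (1:ℝ)..2, Ph t := ⟨_, rfl⟩
  have hc0p : 0 < c0 := by rw [hc0]; linarith [c0_pos]
  have hl2 : 0 < Real.log 2 := Real.log_pos (by norm_num)
  refine ⟨(1 + 65 * K + |Real.log c0|) / Real.log 2, by positivity, ?_⟩
  intro n H hH S hS
  have hd : Differentiable ℂ (iteratedDeriv n XX) := Pool.Agent.W125.SD.iter_diff n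
  have hf1 := low_one n
  rw [← hc0] at hf1
  have hf1p : 0 < ‖iteratedDeriv n XX 1‖ := by linarith
  obtain ⟨M, hM⟩ : ∃ M : ℝ, M = n.factorial * Real.exp (K * (65 * H ^ 2)) := ⟨_, rfl⟩
  have hfac : (1 : ℝ) ≤ n.factorial := by exact_mod_cast n.factorial_pos
  have hM1 : 1 ≤ M := by
    rw [hM]
    have : 1 ≤ Real.exp (K * (65 * H ^ 2)) := Real.one_le_exp (by positivity)
    nlinarith
  have h := Pool.Agent.W125.SD.jcount0 hd (c := 1) (r := H + 2) (R := 2 * (H + 2)) (M := M) (by linarith)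
    (by linarith) hM1 (norm_pos_iff.1 hf1p) (by
      intro z hz
      have hc := Complex.norm_iteratedDeriv_le_of_forall_mem_sphere_norm_le n (c := z) (R := 1)
        (C := Real.exp (K * (65 * H ^ 2))) (f := XX) one_pos Pool.Agent.W125.SD.XX_diff.diffContOnCl (by
          intro w hw
          rw [mem_sphere_iff_norm] at hw
          refine (hg w).trans (Real.exp_le_exp.2 ?_)
          apply mul_le_mul_of_nonneg_left _ hK.le
          have h1 : ‖w‖ ≤ 2 * H + 6 := by
            have e : w = (w - z) + (z - 1) + 1 := by ring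
            rw [e]
            have h2 := norm_add_le ((w - z) + (z - 1)) (1 : ℂ)
            have h3 := norm_add_le (w - z) (z - 1)
            rw [norm_one] at h2
            linarith
          have h0 := norm_nonneg w
          have h8 : ‖w‖ ≤ 8 * H := by linarith
          nlinarith)
      rw [one_pow, div_one] at hc
      rw [hM]
      exact hc) S (by
      intro s hs
      obtain ⟨h1, h2⟩ := hS s hs
      have h3 := Pool.Agent.H24R2.DZ.strip n s h1
      have h4 : ‖s - 1‖ ≤ |(s - 1).re| + |(s - 1).im| := Complex.norm_le_abs_re_add_abs_im _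
      have h5 : (s - 1).re = s.re - 1 := by simp
      have h6 : (s - 1).im = s.im := by simp
      rw [h5, h6] at h4
      have h7 : |s.re - 1| ≤ |s.re| + |(1 : ℝ)| := abs_sub _ _
      rw [abs_one] at h7
      linarith)
  refine h.trans ?_
  have e2 : 2 * (H + 2) / (H + 2) = 2 := by
    field_simp
  rw [e2, div_mul_eq_mul_div]
  apply div_le_div_of_nonneg_right _ hl2.le
  have hlog : Real.log (M / ‖iteratedDeriv n XX 1‖) ≤ Real.log M - Real.log c0 := by
    rw [Real.log_div (by linarith) hf1p.ne']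
    have := Real.log_le_log hc0p hf1
    linarith
  have hlogM : Real.log M ≤ n ^ 2 + K * (65 * H ^ 2) := by
    rw [hM, Real.log_mul (by linarith) (Real.exp_pos _).ne', Real.log_exp]
    have h1 : Real.log n.factorial ≤ n ^ 2 := by
      have h2 : (n.factorial : ℝ) ≤ (n : ℝ) ^ n := by exact_mod_cast n.factorial_le_pow
      have h3 := Real.log_le_log (by linarith) h2
      rw [Real.log_pow] at h3
      have h4 : (n : ℝ) * Real.log n ≤ n * n := by
        apply mul_le_mul_of_nonneg_left _ (Nat.cast_nonneg n)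
        rcases Nat.eq_zero_or_pos n with h | h
        · rw [h]; simp
        · have := Real.log_le_sub_one_of_pos (show (0 : ℝ) < n by exact_mod_cast h)
          linarith
      nlinarith
    linarith
  have h9 : -Real.log c0 ≤ |Real.log c0| * H ^ 2 := by
    have h1 := neg_le_abs (Real.log c0)
    have h2 : 1 ≤ H ^ 2 := by nlinarith
    have h3 := abs_nonneg (Real.log c0)
    nlinarith
  have h10 : 0 ≤ (65 * K + |Real.log c0|) * (n : ℝ) ^ 2 := by positivity
  nlinarith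

/-- dyadic summation -/
theorem dyG {p : ℂ → Prop} {w : ℂ → ℝ} (hw : ∀ s, 0 ≤ w s) {A V Um : ℝ} (hV : 0 < V) (hA : 0 ≤ A)
    (h : ∀ T : ℝ, V ≤ T → T ≤ Um → ∀ S : Finset ℂ, (∀ s ∈ S, p s ∧ 1 / 2 * T < s.im ∧ s.im ≤ T) →
      ∑ s ∈ S, w s ≤ A * T)
    (k : ℕ) : ∀ U : ℝ, U ≤ 2 ^ k * V → U ≤ Um → ∀ S : Finset ℂ,
      (∀ s ∈ S, p s ∧ V < s.im ∧ s.im ≤ U) → ∑ s ∈ S, w s ≤ 2 * A * U ∨ S = ∅ := by
  classical
  induction k with
  | zero =>
    intro U hU hU' S hS
    right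
    rw [Finset.eq_empty_iff_forall_notMem]
    intro s hs
    obtain ⟨hb, h0, h1⟩ := hS s hs
    rw [pow_zero, one_mul] at hU
    linarith
  | succ k ih =>
    intro U hU hU' S hS
    rcases S.eq_empty_or_nonempty with h0 | ⟨s0, hs0⟩
    · exact Or.inr h0
    left
    obtain ⟨-, hs1, hs2⟩ := hS s0 hs0
    have hUV : V < U := lt_of_lt_of_le hs1 hs2
    have h1 := ih (U / 2) (by rw [pow_succ] at hU; linarith) (by linarith)
      (S.filter fun s => s.im ≤ U / 2) (by
        intro s hs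
        rw [Finset.mem_filter] at hs
        exact ⟨(hS s hs.1).1, (hS s hs.1).2.1, hs.2⟩)
    have h1' : ∑ s ∈ S.filter (fun s => s.im ≤ U / 2), w s ≤ A * U := by
      rcases h1 with h1 | h1
      · linarith
      · rw [h1, Finset.sum_empty]
        have : 0 < U := by linarith
        positivity
    have h2 := h U hUV.le hU' (S.filter fun s => ¬ s.im ≤ U / 2) (by
      intro s hs
      rw [Finset.mem_filter, not_le] at hs
      exact ⟨(hS s hs.1).1, by linarith [hs.2], (hS s hs.1).2.2⟩)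
    rw [← Finset.sum_filter_add_sum_filter_not S (fun s => s.im ≤ U / 2)]
    linarith

end Pool.Agent.Q278.DE
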