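import Pool.Agent.Q278.DE.F

set_option autoImplicit false

/-!
# The number of zeros of the derivative which are not nice
-/

namespace Pool.Agent.Q278.DE

open Complex Filter Topology MeasureTheory Set
open Pool.Agent.H24R2.JP (XX)
open Pool.Agent.H24R2.DZ
open Pool.Agent.W571.SD (wt wt_nonneg window)

/-- the normalised ordinate -/
noncomputable def nor (y : ℝ) : ℝ := y * Real.log y / (2 * Real.pi)

def NiceX (n : ℕ) (η : ℝ) (s : ℂ) : Prop :=
  s.re = 0 ∧ iteratedDeriv (n + 1) XX s ≠ 0 ∧ ∃ y1 : ℝ, s.im < y1 ∧ iteratedDeriv n XX (y1 * I) = 0 ∧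
    (∀ w : ℂ, iteratedDeriv n XX w = 0 → s.im < w.im → y1 ≤ w.im) ∧ |nor y1 - nor s.im - 1| ≤ η

theorem niceX_of {n : ℕ} {η : ℝ} {s : ℂ} (hη0 : 0 < η) (hη1 : η ≤ 1) (hs0 : 0 < s.im)
    (hs : 8 / η ≤ Real.log s.im) (h : NiceD n (η / 4) s) : NiceX n η s := by
  obtain ⟨h1, h2, y1, h3, h4, h5, h6⟩ := h
  refine ⟨h1, h2, y1, h3, h4, h5, ?_⟩
  obtain ⟨y, hy⟩ : ∃ y : ℝ, y = s.im := ⟨_, rfl⟩
  rw [← hy] at h3 h6 hs hs0 ⊢
  obtain ⟨l, hl⟩ : ∃ l : ℝ, l = Real.log y := ⟨_, rfl⟩
  rw [← hl] at h6 hs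
  have hl8 : 8 ≤ l * η := by rwa [div_le_iff₀ hη0] at hs
  have hl8' : 8 ≤ l := by nlinarith
  have hpi := Real.pi_pos
  have hpi4 := Real.pi_lt_four
  have hpi3 := Real.pi_gt_three
  have hd0 : 0 < y1 - y := by linarith
  have hy1 : 1 ≤ y := by
    have := Real.add_one_le_exp l
    rw [hl, Real.exp_log hs0] at this
    linarith
  have h7 := abs_le.1 h6
  have hA : 1 / 2 * l * (y1 - y) ≤ (1 + η / 4) * Real.pi := by
    have : 1 / 2 * l * (y1 - y) / Real.pi ≤ 1 + η / 4 := by linarith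
    rwa [div_le_iff₀ hpi] at this
  have hB : (1 - η / 4) * Real.pi ≤ 1 / 2 * l * (y1 - y) := by
    have : 1 - η / 4 ≤ 1 / 2 * l * (y1 - y) / Real.pi := by linarith
    rwa [le_div_iff₀ hpi] at this
  have hd2 : y1 - y ≤ 2 := by
    by_contra hcon
    push Not at hcon
    have : 1 / 2 * 8 * 2 < 1 / 2 * l * (y1 - y) := by nlinarith
    nlinarith
  have hd1 : y1 - y ≤ y * 2 := by linarith
  -- the extra term
  obtain ⟨e, he⟩ : ∃ e : ℝ, e = y1 * (Real.log y1 - l) := ⟨_, rfl⟩
  have he0 : 0 ≤ e := by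
    rw [he, hl]
    have := Real.log_le_log hs0 h3.le
    apply mul_nonneg <;> linarith
  have he1 : e ≤ 3 * (y1 - y) := by
    have h8 : Real.log y1 - l ≤ (y1 - y) / y := by
      rw [hl, ← Real.log_div (by linarith) (by linarith)]
      have := Real.log_le_sub_one_of_pos (show 0 < y1 / y from div_pos (by linarith) hs0)
      have e2 : y1 / y - 1 = (y1 - y) / y := by field_simp
      linarith
    have h9 : e ≤ y1 * ((y1 - y) / y) := by
      rw [he]
      apply mul_le_mul_of_nonneg_left h8 (by linarith)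
    have h10 : y1 * ((y1 - y) / y) = (y1 - y) * (y1 / y) := by ring
    have h11 : y1 / y ≤ 3 := by
      rw [div_le_iff₀ (by linarith)]
      linarith
    rw [h10] at h9
    nlinarith
  have hkey : nor y1 - nor y - 1 = (l * (y1 - y) + e) / (2 * Real.pi) - 1 := by
    unfold nor
    rw [← hl, he]
    field_simp
    ring
  rw [hkey, abs_le]
  have h2pi : 0 < 2 * Real.pi := by linarith
  constructor
  · have : 1 - η ≤ (l * (y1 - y) + e) / (2 * Real.pi) := by
      rw [le_div_iff₀ h2pi]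
      nlinarith
    linarith
  · rw [sub_le_iff_le_add', div_le_iff₀ h2pi]
    have h12 : e ≤ 3 / 8 * η * (l * (y1 - y)) := by
      have : 3 * (y1 - y) ≤ 3 / 8 * (l * η) * (y1 - y) := by nlinarith
      nlinarith
    have h13 : l * (y1 - y) ≤ 2 * ((1 + η / 4) * Real.pi) := by linarith
    have h14 : l * (y1 - y) + e ≤ (1 + 3 / 8 * η) * (l * (y1 - y)) := by linarith
    have h15 : (1 + 3 / 8 * η) * (l * (y1 - y)) ≤ (1 + 3 / 8 * η) * (2 * ((1 + η / 4) * Real.pi)) := by
      apply mul_le_mul_of_nonneg_left h13 (by positivity)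
    have h16 : (1 + 3 / 8 * η) * (1 + η / 4) ≤ 1 + η := by nlinarith
    have h17 : (1 + 3 / 8 * η) * (2 * ((1 + η / 4) * Real.pi)) = ((1 + 3 / 8 * η) * (1 + η / 4)) * (2 * Real.pi) := by
      ring
    have h18 : ((1 + 3 / 8 * η) * (1 + η / 4)) * (2 * Real.pi) ≤ (1 + η) * (2 * Real.pi) :=
      mul_le_mul_of_nonneg_right h16 h2pi.le
    linarith

/-- **The number of exceptions.** -/
theorem fin_XX {η : ℝ} (hη0 : 0 < η) (hη1 : η ≤ 1) : ∃ c C δ : ℝ, 0 < c ∧ 0 < C ∧ 0 < δ ∧
    ∀ (n : ℕ) (T : ℝ), 2 ≤ T → (n : ℝ) ≤ δ * Real.log T → ∀ S : Finset ℂ,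
    (∀ s ∈ S, (iteratedDeriv n XX s = 0 ∧ ¬ NiceX n η s) ∧ 0 < s.im ∧ s.im ≤ T) →
    ∑ s ∈ S, (analyticOrderNatAt (iteratedDeriv n XX) s : ℝ) ≤ C * Real.exp (-(c * n)) * T * Real.log T := by
  classical
  obtain ⟨c, C, T0, n0, hc, hC, hT0, hmid⟩ := mid (ηm := η / 4) (by positivity) (by linarith)
  obtain ⟨K, hK, hlow⟩ := low_count
  obtain ⟨C5, T5, hC5, hT5, hunit⟩ := Pool.Agent.W186.SD.sunit
  obtain ⟨V0, hV0⟩ : ∃ V0 : ℝ, V0 = max (max (2 * T0) (2 * T5)) (2 * Real.exp (8 / η + 4)) := ⟨_, rfl⟩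
  have hV0a : 2 * T0 ≤ V0 := by rw [hV0]; exact (le_max_left _ _).trans (le_max_left _ _)
  have hV0b : 2 * T5 ≤ V0 := by rw [hV0]; exact (le_max_right _ _).trans (le_max_left _ _)
  have hV0c : 2 * Real.exp (8 / η + 4) ≤ V0 := by rw [hV0]; exact le_max_right _ _
  have hV04 : 4 ≤ V0 := by linarith
  obtain ⟨δ, hδ⟩ : ∃ δ : ℝ, δ = min (1 / 4000) (1 / (8 * c)) := ⟨_, rfl⟩
  have hδ0 : 0 < δ := by rw [hδ]; exact lt_min (by norm_num) (by positivity)
  have hδ1 : δ ≤ 1 / 4000 := by rw [hδ]; exact min_le_left _ _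
  have hδ2 : c * δ ≤ 1 / 8 := by
    have : δ ≤ 1 / (8 * c) := by rw [hδ]; exact min_le_right _ _
    calc c * δ ≤ c * (1 / (8 * c)) := mul_le_mul_of_nonneg_left this hc.le
      _ = 1 / 8 := by field_simp
  obtain ⟨A1, hA1⟩ : ∃ A1 : ℝ, A1 = 4 * K * V0 ^ 8 := ⟨_, rfl⟩
  obtain ⟨A2, hA2⟩ : ∃ A2 : ℝ, A2 = C + C5 * Real.exp (c * n0) := ⟨_, rfl⟩
  have hA10 : 0 < A1 := by rw [hA1]; positivity
  have hA20 : 0 < A2 := by rw [hA2]; positivity
  refine ⟨c, A1 + 34 * K + 2 * A2, δ, hc, by positivity, hδ0, ?_⟩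
  intro n T hT hnT S hS
  have hT0' : 0 < T := by linarith
  obtain ⟨l, hl⟩ : ∃ l : ℝ, l = Real.log T := ⟨_, rfl⟩
  rw [← hl] at hnT ⊢
  have hl2 : 1 / 2 ≤ l := by
    rw [hl]
    have h3 : Real.log 2 ≤ Real.log T := Real.log_le_log (by norm_num) hT
    have := Real.log_two_gt_d9
    linarith
  have hl0 : 0 < l := by linarith
  have hlT : l ≤ T := by
    rw [hl]
    have := Real.log_le_sub_one_of_pos hT0'
    linarith
  have hn0 : (0 : ℝ) ≤ n := Nat.cast_nonneg n
  have hnl : (n : ℝ) ≤ l := by nlinarith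
  -- the fourth root
  obtain ⟨V, hV⟩ : ∃ V : ℝ, V = Real.exp (l / 4) := ⟨_, rfl⟩
  have hVT : V ^ 4 = T := by
    rw [hV, ← Real.exp_nat_mul]
    have : ((4 : ℕ) : ℝ) * (l / 4) = l := by push_cast; ring
    rw [this, hl, Real.exp_log hT0']
  have hVp : 0 < V := by rw [hV]; exact Real.exp_pos _
  have hV1 : 1 ≤ V := by rw [hV]; exact Real.one_le_exp (by positivity)
  have hlV : l ≤ 4 * V := by
    have := Real.add_one_le_exp (l / 4)
    rw [← hV] at this
    linarith
  -- the lower bound for the exponential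
  have hE : 1 ≤ Real.exp (-(c * n)) * Real.exp (l / 8) := by
    rw [← Real.exp_add]
    apply Real.one_le_exp
    have : c * n ≤ c * (δ * l) := mul_le_mul_of_nonneg_left hnT hc.le
    have h2 : c * (δ * l) ≤ 1 / 8 * l := by
      rw [← mul_assoc]
      exact mul_le_mul_of_nonneg_right hδ2 hl0.le
    linarith
  have hEp := Real.exp_pos (-(c * n))
  have hE8 : Real.exp (l / 8) ≤ V := by
    rw [hV]
    apply Real.exp_le_exp.2
    linarith
  have hEV : 1 ≤ Real.exp (-(c * n)) * V := hE.trans (mul_le_mul_of_nonneg_left hE8 hEp.le)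
  rcases lt_or_ge V V0 with hcase | hcase
  · -- small `T`
    have h1 := hlow n T (by linarith) S (by
      intro s hs
      obtain ⟨⟨h1, -⟩, h2, h3⟩ := hS s hs
      exact ⟨h1, by rw [abs_of_pos h2]; exact h3⟩)
    refine h1.trans ?_
    have h2 : (n : ℝ) ^ 2 + T ^ 2 ≤ 2 * T ^ 2 := by nlinarith
    have h3 : V ^ 8 ≤ V0 ^ 8 := pow_le_pow_left₀ hVp.le hcase.le 8
    have h4 : T ^ 2 ≤ V0 ^ 8 := by
      rw [← hVT]
      calc (V ^ 4) ^ 2 = V ^ 8 := by ring
        _ ≤ V0 ^ 8 := h3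
    have h5 : V ≤ T := by
      rw [← hVT]
      calc V = V ^ 1 := (pow_one V).symm
        _ ≤ V ^ 4 := pow_le_pow_right₀ hV1 (by norm_num)
    have h6 : 1 ≤ Real.exp (-(c * n)) * T := hEV.trans (mul_le_mul_of_nonneg_left h5 hEp.le)
    have h7 : 1 / 2 ≤ Real.exp (-(c * n)) * T * l := by nlinarith
    have h8 : K * ((n : ℝ) ^ 2 + T ^ 2) ≤ 2 * K * V0 ^ 8 := by nlinarith
    have h9 : 2 * K * V0 ^ 8 ≤ A1 * (Real.exp (-(c * n)) * T * l) := by
      rw [hA1]
      have : 0 < K * V0 ^ 8 := by positivity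
      nlinarith
    have h10 : 0 ≤ (34 * K + 2 * A2) * (Real.exp (-(c * n)) * T * l) := by positivity
    calc K * ((n : ℝ) ^ 2 + T ^ 2) ≤ A1 * (Real.exp (-(c * n)) * T * l) := h8.trans h9
      _ ≤ A1 * (Real.exp (-(c * n)) * T * l) + (34 * K + 2 * A2) * (Real.exp (-(c * n)) * T * l) := by linarith
      _ = _ := by ring
  · -- large `T`
    have hVexp : Real.exp (8 / η + 4) ≤ V / 2 := by linarith
    have hlV2 : l / 8 ≤ Real.log (V / 2) := by
      rw [Real.log_div hVp.ne' (by norm_num), hV, Real.log_exp]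
      have h1 : Real.log 2 ≤ 1 := by
        have := Real.log_le_sub_one_of_pos (show (0 : ℝ) < 2 by norm_num)
        linarith
      have h2 : 8 / η + 4 ≤ l / 4 := by
        rw [← Real.exp_le_exp, ← hV]
        linarith
      have h3 : 0 < 8 / η := by positivity
      linarith
    have hblock : ∀ T' : ℝ, V ≤ T' → T' ≤ T → ∀ S : Finset ℂ,
        (∀ s ∈ S, (iteratedDeriv n XX s = 0 ∧ ¬ NiceX n η s) ∧ 1 / 2 * T' < s.im ∧ s.im ≤ T') →
        ∑ s ∈ S, wt n s ≤ (A2 * Real.exp (-(c * n)) * l) * T' := by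
      intro T' hT'1 hT'2 S hS
      have hT'0 : 0 < T' := by linarith
      have hlog1 : Real.log (V / 2) ≤ Real.log (1 / 2 * T') := Real.log_le_log (by positivity) (by linarith)
      have hlog2 : Real.log T' ≤ l := by rw [hl]; exact Real.log_le_log hT'0 hT'2
      have hlog3 : Real.log (1 / 2 * T') ≤ l := by
        refine (Real.log_le_log (by positivity) ?_).trans hlog2
        linarith
      have hlog4 : 0 ≤ Real.log (1 / 2 * T') := by linarith
      rcases lt_or_ge n n0 with hn | hn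
      · have h1 := window hC5 hT5 hunit n (1 / 2 * T') (1 / 2 * T') (by linarith) (by
            have : (n : ℝ) ≤ δ * l := hnT
            nlinarith) (by positivity) S (by
          intro s hs
          obtain ⟨⟨h1, -⟩, h2, h3⟩ := hS s hs
          exact ⟨h2.le, by linarith, h1⟩)
        refine h1.trans ?_
        have e1 : 1 / 2 * T' + 1 / 2 * T' = T' := by ring
        rw [e1]
        have h2 : 1 ≤ Real.exp (c * n0) * Real.exp (-(c * n)) := by
          rw [← Real.exp_add]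
          apply Real.one_le_exp
          have : (n : ℝ) ≤ n0 := by exact_mod_cast hn.le
          nlinarith
        have h3 : (1 / 2 * T' + 1) * (C5 * Real.log T') ≤ T' * (C5 * l) := by
          apply mul_le_mul (by linarith) (mul_le_mul_of_nonneg_left hlog2 hC5.le) _ hT'0.le
          apply mul_nonneg hC5.le
          exact hlog4.trans (Real.log_le_log (by positivity) (by linarith))
        have h4 : 0 ≤ C * Real.exp (-(c * n)) * l * T' := by positivity
        calc (1 / 2 * T' + 1) * (C5 * Real.log T') ≤ T' * (C5 * l) * 1 := by rw [mul_one]; exact h3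
          _ ≤ T' * (C5 * l) * (Real.exp (c * n0) * Real.exp (-(c * n))) :=
            mul_le_mul_of_nonneg_left h2 (by positivity)
          _ = C5 * Real.exp (c * n0) * Real.exp (-(c * n)) * l * T' := by ring
          _ ≤ C * Real.exp (-(c * n)) * l * T' + C5 * Real.exp (c * n0) * Real.exp (-(c * n)) * l * T' := by
            linarith
          _ = _ := by rw [hA2]; ring
      · have h1 := hmid (1 / 2 * T') n (by linarith) hn (by
            have : (n : ℝ) ≤ δ * l := hnT
            nlinarith) S (by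
          intro s hs
          obtain ⟨⟨h1, h4⟩, h2, h3⟩ := hS s hs
          have h5 : 0 < s.im := by linarith
          refine ⟨⟨h1, fun hN => h4 (niceX_of hη0 hη1 h5 ?_ hN)⟩, h2, by linarith⟩
          have h6 : 8 / η + 4 ≤ Real.log s.im := by
            rw [Real.le_log_iff_exp_le h5]
            linarith
          linarith)
        refine (show _ ≤ _ from h1).trans ?_
        have h2 : C * (1 / 2 * T') * Real.exp (-(c * n)) * Real.log (1 / 2 * T') ≤
            C * T' * Real.exp (-(c * n)) * l := by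
          have : 1 / 2 * T' ≤ T' := by linarith
          gcongr
        refine h2.trans ?_
        have h4 : 0 ≤ C5 * Real.exp (c * n0) * Real.exp (-(c * n)) * l * T' := by positivity
        rw [hA2]
        nlinarith
    obtain ⟨k, hk⟩ : ∃ k : ℕ, T < 2 ^ k := pow_unbounded_of_one_lt T (by norm_num)
    have hAn : 0 ≤ A2 * Real.exp (-(c * n)) * l := by positivity
    have hhigh := dyG (p := fun s => iteratedDeriv n XX s = 0 ∧ ¬ NiceX n η s) (w := wt n) (wt_nonneg n)
      (A := A2 * Real.exp (-(c * n)) * l) (V := V) (Um := T) hVp hAn hblock k T (by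
        have : (0 : ℝ) < 2 ^ k := by positivity
        nlinarith) le_rfl (S.filter fun s => ¬ s.im ≤ V) (by
        intro s hs
        rw [Finset.mem_filter, not_le] at hs
        exact ⟨(hS s hs.1).1, hs.2, (hS s hs.1).2.2⟩)
    have hhigh' : ∑ s ∈ S.filter (fun s => ¬ s.im ≤ V), wt n s ≤ 2 * (A2 * Real.exp (-(c * n)) * l) * T := by
      rcases hhigh with h | h
      · exact h
      · rw [h, Finset.sum_empty]
        positivity
    have hlow' := hlow n V hV1 (S.filter fun s => s.im ≤ V) (by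
      intro s hs
      rw [Finset.mem_filter] at hs
      obtain ⟨⟨h1, -⟩, h2, h3⟩ := hS s hs.1
      exact ⟨h1, by rw [abs_of_pos h2]; exact hs.2⟩)
    have hsplit : ∑ s ∈ S, wt n s = ∑ s ∈ S.filter (fun s => s.im ≤ V), wt n s +
        ∑ s ∈ S.filter (fun s => ¬ s.im ≤ V), wt n s :=
      (Finset.sum_filter_add_sum_filter_not S (fun s => s.im ≤ V) (wt n)).symm
    have hlow2 : ∑ s ∈ S.filter (fun s => s.im ≤ V), wt n s ≤ 34 * K * (Real.exp (-(c * n)) * T * l) := by
      refine (show _ ≤ _ from hlow').trans ?_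
      have h1 : (n : ℝ) ^ 2 + V ^ 2 ≤ 17 * V ^ 2 := by
        have : (n : ℝ) ≤ 4 * V := hnl.trans hlV
        nlinarith
      have h2 : V ^ 2 ≤ Real.exp (-(c * n)) * T := by
        calc V ^ 2 = 1 * V ^ 2 := (one_mul _).symm
          _ ≤ (Real.exp (-(c * n)) * V) * V ^ 2 := mul_le_mul_of_nonneg_right hEV (by positivity)
          _ = Real.exp (-(c * n)) * V ^ 3 := by ring
          _ ≤ Real.exp (-(c * n)) * V ^ 4 := by
            apply mul_le_mul_of_nonneg_left _ hEp.le
            exact pow_le_pow_right₀ hV1 (by norm_num)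
          _ = Real.exp (-(c * n)) * T := by rw [hVT]
      have h3 : V ^ 2 ≤ 2 * (Real.exp (-(c * n)) * T * l) := by
        have : 0 < Real.exp (-(c * n)) * T := by positivity
        nlinarith
      calc K * ((n : ℝ) ^ 2 + V ^ 2) ≤ K * (17 * (2 * (Real.exp (-(c * n)) * T * l))) := by
            apply mul_le_mul_of_nonneg_left _ hK.le
            linarith
        _ = _ := by ring
    have hfin : ∑ s ∈ S, wt n s ≤ (A1 + 34 * K + 2 * A2) * Real.exp (-(c * n)) * T * l := by
      rw [hsplit]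
      have h10 : 0 ≤ A1 * (Real.exp (-(c * n)) * T * l) := by positivity
      calc _ ≤ 34 * K * (Real.exp (-(c * n)) * T * l) + 2 * (A2 * Real.exp (-(c * n)) * l) * T :=
            add_le_add hlow2 hhigh'
        _ ≤ A1 * (Real.exp (-(c * n)) * T * l) + (34 * K * (Real.exp (-(c * n)) * T * l) +
            2 * (A2 * Real.exp (-(c * n)) * l) * T) := by linarith
        _ = _ := by ring
    exact hfin

end Pool.Agent.Q278.DE
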