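import Pool.Agent.Q278.DE.G
import Pool.Agent.W186.SD.CntD
import Pool.Agent.W803.SD.Totd

set_option autoImplicit false

/-!
# Differentiation evens out the spacings of the zeros of the Riemann xi function
-/

namespace Pool.Agent.Q278.DE

open Complex Filter Topology MeasureTheory Set
open Pool.Agent.H24R2.JP (XX)
open Pool.Agent.H986R2.K4 (xi)
open Pool.Agent.H986R2.K4.XiAux
open Pool.Agent.W186.SD.Cnt (Zer num zer_fin num_mono num_shift tot_bound)

/-- `s` is a simple zero on the critical line, the next zero above it lies also on the line, and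
their normalised gap differs from `1` by at most `η` -/
def Reg (n : ℕ) (η : ℝ) (s : ℂ) : Prop :=
  s.re = 1 / 2 ∧ iteratedDeriv (n + 1) xi s ≠ 0 ∧ ∃ y : ℝ, s.im < y ∧
    iteratedDeriv n xi (1 / 2 + y * I) = 0 ∧
    (∀ w : ℂ, iteratedDeriv n xi w = 0 → s.im < w.im → y ≤ w.im) ∧ |nor y - nor s.im - 1| ≤ η

/-- The zeros up to height `T` which are not regular. -/
def Irr (n : ℕ) (η T : ℝ) : Set ℂ := {s | s ∈ Zer n T ∧ ¬ Reg n η s}

theorem reg_of {n : ℕ} {η : ℝ} {s : ℂ} (h : NiceX n η (s - 1 / 2)) : Reg n η s := by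
  obtain ⟨h1, h2, y, h3, h4, h5, h6⟩ := h
  rw [half_re] at h1
  rw [half_im] at h3 h5 h6
  refine ⟨by linarith, fun h => h2 ((zero_iff (n + 1) s).1 h), y, h3, ?_, ?_, h6⟩
  · rw [zero_iff]
    have e : (1 / 2 : ℂ) + y * I - 1 / 2 = y * I := by ring
    rw [e]
    exact h4
  · intro w hw hsw
    have := h5 (w - 1 / 2) ((zero_iff n w).1 hw) (by rw [half_im]; exact hsw)
    rwa [half_im] at this

theorem reg_mono {n : ℕ} {η η' : ℝ} {s : ℂ} (h : η ≤ η') (hs : Reg n η s) : Reg n η' s := by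
  obtain ⟨h1, h2, y, h3, h4, h5, h6⟩ := hs
  exact ⟨h1, h2, y, h3, h4, h5, h6.trans h⟩

theorem main (η : ℝ) (hη : 0 < η) : ∃ c C δ : ℝ, 0 < c ∧ 0 < C ∧ 0 < δ ∧
    ∀ (n : ℕ) (T : ℝ), 2 ≤ T → (n : ℝ) ≤ δ * Real.log T →
    (num n (Irr n η T) : ℝ) ≤ C * Real.exp (-(c * n)) * num n (Zer n T) ∧
    (num n (Irr n η T) : ℝ) ≤ C * Real.exp (-(c * n)) * T * Real.log T := by
  obtain ⟨c, C, δ, hc, hC, hδ, h⟩ := fin_XX (η := min η 1) (lt_min hη one_pos) (min_le_right _ _)
  obtain ⟨c2, T0, hc2, hT0, htot⟩ := Pool.Agent.W803.SD.totd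
  obtain ⟨T1, hT1⟩ : ∃ T1 : ℝ, T1 = max T0 (δ / c2) := ⟨_, rfl⟩
  have hT10 : T0 ≤ T1 := by rw [hT1]; exact le_max_left _ _
  have hT11 : δ / c2 ≤ T1 := by rw [hT1]; exact le_max_right _ _
  refine ⟨c, C + C / c2 + Real.exp (c * (δ * Real.log T1)), δ, hc, by positivity, hδ, ?_⟩
  intro n T hT hn
  have hE := Real.exp_pos (-(c * n))
  have hl0 : 0 < Real.log T := Real.log_pos (by linarith)
  have hT0' : 0 < T := by linarith
  have hZ0 : (0 : ℝ) ≤ num n (Zer n T) := Nat.cast_nonneg _
  have hsub : Irr n η T ⊆ Zer n T := fun _ h => h.1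
  have hfin : (Irr n η T).Finite := (zer_fin n T).subset hsub
  have hb : (num n (Irr n η T) : ℝ) ≤ C * Real.exp (-(c * n)) * T * Real.log T := by
    rw [num_shift hfin]
    apply h n T hT hn
    intro s hs
    obtain ⟨z, hz, rfl⟩ := Finset.mem_image.1 hs
    rw [Set.Finite.mem_toFinset] at hz
    obtain ⟨⟨h1, h2, h3⟩, h4⟩ := hz
    refine ⟨⟨(zero_iff n z).1 h1, fun hN => h4 (reg_mono (min_le_left _ _) (reg_of hN))⟩, ?_, ?_⟩
    · rw [half_im]; exact h2
    · rw [half_im]; exact h3
  constructor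
  · rcases lt_or_ge T T1 with hcase | hcase
    · have h4 : 1 ≤ Real.exp (c * (δ * Real.log T1)) * Real.exp (-(c * n)) := by
        rw [← Real.exp_add]
        apply Real.one_le_exp
        have h5 : Real.log T ≤ Real.log T1 := Real.log_le_log hT0' hcase.le
        have h6 : (n : ℝ) ≤ δ * Real.log T1 := hn.trans (mul_le_mul_of_nonneg_left h5 hδ.le)
        have h7 : c * n ≤ c * (δ * Real.log T1) := mul_le_mul_of_nonneg_left h6 hc.le
        linarith
      calc (num n (Irr n η T) : ℝ) ≤ num n (Zer n T) := num_mono (zer_fin n T) hsub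
        _ = 1 * num n (Zer n T) := by ring
        _ ≤ (Real.exp (c * (δ * Real.log T1)) * Real.exp (-(c * n))) * num n (Zer n T) := by gcongr
        _ ≤ _ := by
          have : 0 ≤ (C + C / c2) * Real.exp (-(c * n)) * num n (Zer n T) := by positivity
          linarith
    · have h6 : (n : ℝ) ≤ c2 * T * Real.log T := by
        have h7 : δ ≤ c2 * T := by
          have : δ / c2 ≤ T := hT11.trans hcase
          rw [div_le_iff₀ hc2] at this
          linarith
        exact hn.trans (mul_le_mul_of_nonneg_right h7 hl0.le)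
      have h7 := tot_bound htot n T (hT10.trans hcase) h6
      have h9 : C * Real.exp (-(c * n)) * T * Real.log T ≤
          C / c2 * Real.exp (-(c * n)) * num n (Zer n T) := by
        calc C * Real.exp (-(c * n)) * T * Real.log T =
            C / c2 * Real.exp (-(c * n)) * (c2 * T * Real.log T) := by field_simp
          _ ≤ _ := by gcongr
      have h10 : 0 ≤ (C + Real.exp (c * (δ * Real.log T1))) * Real.exp (-(c * n)) * num n (Zer n T) := by
        positivity
      linarith
  · have h9 : 0 ≤ (C / c2 + Real.exp (c * (δ * Real.log T1))) * Real.exp (-(c * n)) * T * Real.log T := by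
      positivity
    linarith

end Pool.Agent.Q278.DE
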